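import Mathlib

/-! Definitions of the leaf number and of the second smallest degree of a finite graph. -/

namespace Pool.Agent.H22.Leaf

open Finset

/-- The number of leaves (vertices of degree one) of a graph on a finite vertex set. -/
noncomputable def leafCount {V : Type*} [Fintype V] (T : SimpleGraph V) : ℕ := by
  classical
  exact (Finset.univ.filter fun v : V => T.degree v = 1).card

/-- The leaf number `L(G)`: the largest number of leaves in a spanning tree of `G`. -/
noncomputable def leafNumber {V : Type*} [Fintype V] (G : SimpleGraph V) : ℕ :=
  sSup {k : ℕ | ∃ T : SimpleGraph V, T ≤ G ∧ T.IsTree ∧ leafCount T = k}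

/-- The second entry of the list of all vertex degrees, sorted in nondecreasing order. -/
noncomputable def secondSmallestDegree {V : Type*} [Fintype V] (G : SimpleGraph V) : ℕ := by
  classical
  exact ((Finset.univ.val.map fun v : V => G.degree v).sort (· ≤ ·)).getD 1 0

end Pool.Agent.H22.Leaf
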