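import Pool.Agent.H22.LeafDefs

/-! Proof that a connected graph with `L(G) ≤ δ'(G) + 1` has a Hamiltonian path. -/

set_option linter.unusedVariables false
set_option linter.unusedSectionVars false

namespace Pool.Agent.H22.Leaf

open Finset

/-! ### Sets built by adding adjacent vertices -/

/-- Nonempty vertex sets that can be built by adding one adjacent vertex at a time. -/
inductive CS {V : Type*} [DecidableEq V] (G : SimpleGraph V) : Finset V → Prop
  | single (v : V) : CS G {v}
  | add {S : Finset V} {x y : V} : CS G S → x ∈ S → G.Adj x y → CS G (insert y S)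

variable {V : Type*}

/-- The hypothesis that every spanning tree has at most `k + 1` leaves, in connected-set form. -/
def Hyp [DecidableEq V] (G : SimpleGraph V) (k : ℕ) : Prop :=
  ∀ S F : Finset V, CS G S → Disjoint S F → (∀ f ∈ F, ∃ s ∈ S, G.Adj s f) → F.card ≤ k + 1

section tree

variable [Fintype V] [DecidableEq V] {G : SimpleGraph V}

lemma CS.nonempty {S : Finset V} (h : CS G S) : S.Nonempty := by
  induction h with
  | single v => exact ⟨v, by simp⟩
  | add _ _ _ _ => exact ⟨_, Finset.mem_insert_self _ _⟩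

/-- The graph keeping the edges inside `D` and one edge from each outside vertex to `D`. -/
def reduce (G : SimpleGraph V) (D : Finset V) (f : V → V) : SimpleGraph V where
  Adj x y := (x ∈ D ∧ y ∈ D ∧ G.Adj x y) ∨ (x ∉ D ∧ y ∈ D ∧ y = f x ∧ G.Adj x y) ∨
    (y ∉ D ∧ x ∈ D ∧ x = f y ∧ G.Adj x y)
  symm := ⟨by
    rintro x y (h | h | h)
    · exact Or.inl ⟨h.2.1, h.1, h.2.2.symm⟩
    · exact Or.inr (Or.inr ⟨h.1, h.2.1, h.2.2.1, h.2.2.2.symm⟩)
    · exact Or.inr (Or.inl ⟨h.1, h.2.1, h.2.2.1, h.2.2.2.symm⟩)⟩
  loopless := ⟨by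
    rintro x (h | h | h)
    · exact h.2.2.ne rfl
    · exact h.2.2.2.ne rfl
    · exact h.2.2.2.ne rfl⟩

lemma reduce_le (D : Finset V) (f : V → V) : reduce G D f ≤ G := by
  rintro x y (h | h | h)
  · exact h.2.2
  · exact h.2.2.2
  · exact h.2.2.2

lemma CS.reach {S D : Finset V} (f : V → V) (h : CS G S) :
    S ⊆ D → ∀ x ∈ S, ∀ y ∈ S, (reduce G D f).Reachable x y := by
  induction h with
  | single v =>
    intro _ x hx y hy
    simp only [Finset.mem_singleton] at hx hy
    subst hx; subst hy; exact SimpleGraph.Reachable.refl _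
  | @add S a b hS ha hab ih =>
    intro hSD x hx y hy
    have hsub : S ⊆ D := fun z hz => hSD (Finset.mem_insert_of_mem hz)
    have hadj : (reduce G D f).Adj a b :=
      Or.inl ⟨hsub ha, hSD (Finset.mem_insert_self _ _), hab⟩
    have key : ∀ z ∈ insert b S, (reduce G D f).Reachable a z := by
      intro z hz
      rcases Finset.mem_insert.1 hz with rfl | hz
      · exact hadj.reachable
      · exact ih hsub a ha z hz
    exact (key x hx).symm.trans (key y hy)

/-- A connected dominating set gives a spanning tree in which all other vertices are leaves. -/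
lemma tree_of_dominating (hG : G.Connected) {D : Finset V} (hD : CS G D)
    (hdom : ∀ v, v ∉ D → ∃ s ∈ D, G.Adj s v) :
    ∃ T : SimpleGraph V, T ≤ G ∧ T.IsTree ∧ (Dᶜ).card ≤ leafCount T := by
  classical
  choose! f hf using hdom
  set H := reduce G D f with hH
  obtain ⟨r, hr⟩ := hD.nonempty
  have hreach : ∀ v, H.Reachable r v := by
    intro v
    by_cases hv : v ∈ D
    · exact hD.reach f (Finset.Subset.refl _) r hr v hv
    · have h1 := hf v hv
      have h2 : H.Adj (f v) v := Or.inr (Or.inr ⟨hv, h1.1, rfl, h1.2⟩)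
      exact (hD.reach f (Finset.Subset.refl _) r hr _ h1.1).trans h2.reachable
  have hHc : H.Connected := by
    rw [SimpleGraph.connected_iff_exists_forall_reachable]
    exact ⟨r, hreach⟩
  obtain ⟨T, hTH, hT⟩ := hHc.exists_isTree_le
  refine ⟨T, hTH.trans (reduce_le D f), hT, ?_⟩
  unfold leafCount
  apply Finset.card_le_card
  intro v hv
  rw [Finset.mem_compl] at hv
  simp only [Finset.mem_filter, Finset.mem_univ, true_and]
  rw [SimpleGraph.degree_eq_one_iff_existsUnique_adj]
  have hvr : v ≠ r := fun h => hv (h ▸ hr)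
  obtain ⟨p⟩ := hT.1 v r
  cases p with
  | nil => exact absurd rfl hvr
  | @cons _ w _ hvw p =>
    have huniq : ∀ w, T.Adj v w → w = f v := by
      intro w hw
      rcases hTH hw with h | h | h
      · exact absurd h.1 hv
      · exact h.2.2.1
      · exact absurd h.2.1 hv
    exact ⟨w, hvw, fun y hy => by rw [huniq y hy, huniq w hvw]⟩

/-- Any connected set `S` and set `F` of outside neighbours give a spanning tree with at least
`|F|` leaves. -/
lemma exists_tree (hG : G.Connected) {S F : Finset V} (hS : CS G S) (hSF : Disjoint S F)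
    (hF : ∀ f ∈ F, ∃ s ∈ S, G.Adj s f) :
    ∃ T : SimpleGraph V, T ≤ G ∧ T.IsTree ∧ F.card ≤ leafCount T := by
  classical
  -- boundary
  let N : Finset V → Finset V := fun D => Finset.univ.filter fun v => v ∉ D ∧ ∃ s ∈ D, G.Adj s v
  have hex : ∃ D : Finset V, (CS G D ∧ F.card ≤ (N D).card) ∧
      ∀ D' : Finset V, (CS G D' ∧ F.card ≤ (N D').card) → D'.card ≤ D.card := by
    have hne : (Finset.univ.filter fun D : Finset V => CS G D ∧ F.card ≤ (N D).card).Nonempty := by
      refine ⟨S, ?_⟩
      simp only [Finset.mem_filter, Finset.mem_univ, true_and]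
      refine ⟨hS, Finset.card_le_card ?_⟩
      intro v hv
      simp only [N, Finset.mem_filter, Finset.mem_univ, true_and]
      exact ⟨fun h => (Finset.disjoint_left.1 hSF h hv), hF v hv⟩
    obtain ⟨D, hD, hmax⟩ := Finset.exists_max_image _ Finset.card hne
    simp only [Finset.mem_filter, Finset.mem_univ, true_and] at hD hmax
    exact ⟨D, hD, hmax⟩
  obtain ⟨D, ⟨hD, hcard⟩, hmax⟩ := hex
  -- `D` is dominating
  have hdom : ∀ v, v ∉ D → ∃ s ∈ D, G.Adj s v := by
    by_contra hcon
    push Not at hcon
    obtain ⟨v, hvD, hv⟩ := hcon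
    obtain ⟨r, hr⟩ := hD.nonempty
    -- there is an edge from the closed neighbourhood to the rest
    have : ∃ y z, y ∈ N D ∧ z ∉ D ∧ z ∉ N D ∧ G.Adj y z := by
      by_contra hno
      push Not at hno
      have hclosed : ∀ a b, G.Reachable a b → (a ∈ D ∨ a ∈ N D) → (b ∈ D ∨ b ∈ N D) := by
        intro a b hab
        obtain ⟨p⟩ := hab
        induction p with
        | nil => exact id
        | @cons a c b hac p ih =>
          intro ha
          apply ih
          by_cases hcD : c ∈ D
          · exact Or.inl hcD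
          rcases ha with ha | ha
          · right
            simp only [N, Finset.mem_filter, Finset.mem_univ, true_and]
            exact ⟨hcD, a, ha, hac⟩
          · by_contra hc
            push Not at hc
            exact hno a c ha hc.1 hc.2 hac
      rcases hclosed r v (hG.preconnected r v) (Or.inl hr) with h | h
      · exact hvD h
      · simp only [N, Finset.mem_filter, Finset.mem_univ, true_and] at h
        obtain ⟨_, s, hs, hsv⟩ := h
        exact hv s hs hsv
    obtain ⟨y, z, hy, hzD, hzN, hyz⟩ := this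
    have hyN := hy
    simp only [N, Finset.mem_filter, Finset.mem_univ, true_and] at hy
    obtain ⟨hyD, s, hs, hsy⟩ := hy
    have hD' : CS G (insert y D) := CS.add hD hs hsy
    have hzy : z ≠ y := hyz.ne'
    have hsub : insert z ((N D).erase y) ⊆ N (insert y D) := by
      intro x hx
      rcases Finset.mem_insert.1 hx with rfl | hx
      · simp only [N, Finset.mem_filter, Finset.mem_univ, true_and, Finset.mem_insert]
        refine ⟨by push Not; exact ⟨hzy, hzD⟩, y, Or.inl rfl, hyz⟩
      · obtain ⟨hxy, hxN⟩ := Finset.mem_erase.1 hx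
        simp only [N, Finset.mem_filter, Finset.mem_univ, true_and, Finset.mem_insert] at hxN ⊢
        obtain ⟨hxD, t, ht, htx⟩ := hxN
        exact ⟨by push Not; exact ⟨hxy, hxD⟩, t, Or.inr ht, htx⟩
    have hc : (N D).card ≤ (N (insert y D)).card := by
      refine le_trans ?_ (Finset.card_le_card hsub)
      rw [Finset.card_insert_of_notMem (by
        intro h; exact hzN (Finset.mem_of_mem_erase h)), Finset.card_erase_of_mem hyN]
      omega
    have := hmax (insert y D) ⟨hD', hcard.trans hc⟩
    rw [Finset.card_insert_of_notMem hyD] at this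
    omega
  obtain ⟨T, hT, hTt, hTl⟩ := tree_of_dominating hG hD hdom
  refine ⟨T, hT, hTt, hcard.trans (le_trans (Finset.card_le_card ?_) hTl)⟩
  intro v hv
  simp only [N, Finset.mem_filter, Finset.mem_univ, true_and] at hv
  rw [Finset.mem_compl]
  exact hv.1

lemma leafCount_le_card (T : SimpleGraph V) : leafCount T ≤ Fintype.card V := by
  unfold leafCount
  exact Finset.card_le_univ _

lemma leafCount_le_leafNumber {T : SimpleGraph V} (hT : T ≤ G) (hTt : T.IsTree) :
    leafCount T ≤ leafNumber G := by
  unfold leafNumber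
  apply le_csSup
  · refine ⟨Fintype.card V, ?_⟩
    rintro k ⟨T, _, _, rfl⟩
    exact leafCount_le_card T
  · exact ⟨T, hT, hTt, rfl⟩

lemma hyp_of_leafNumber (hG : G.Connected) {k : ℕ} (hk : leafNumber G ≤ k + 1) : Hyp G k := by
  intro S F hS hSF hF
  obtain ⟨T, hT, hTt, hTl⟩ := exists_tree hG hS hSF hF
  exact (hTl.trans (leafCount_le_leafNumber hT hTt)).trans hk

end tree

/-! ### Paths as functions -/

section paths

variable {G : SimpleGraph V}

/-- `f 0, ..., f (p - 1)` is a path of `G` on `p` vertices. -/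
def PF (G : SimpleGraph V) (p : ℕ) (f : ℕ → V) : Prop :=
  (∀ i < p, ∀ j < p, f i = f j → i = j) ∧ ∀ i, i + 1 < p → G.Adj (f i) (f (i + 1))

lemma PF.rev {p : ℕ} {f : ℕ → V} (h : PF G p f) : PF G p (fun i => f (p - 1 - i)) := by
  refine ⟨fun i hi j hj hij => ?_, fun i hi => ?_⟩
  · have := h.1 (p - 1 - i) (by omega) (p - 1 - j) (by omega) hij
    omega
  · have := h.2 (p - 1 - (i + 1)) (by omega)
    have e : p - 1 - (i + 1) + 1 = p - 1 - i := by omega
    rw [e] at this
    exact this.symm

lemma PF.rot {p : ℕ} {f : ℕ → V} (h : PF G p f) {a : ℕ} (ha0 : 0 < a) (ha : a < p)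
    (hadj : G.Adj (f 0) (f a)) : PF G p (fun i => if i < a then f (a - 1 - i) else f i) := by
  refine ⟨fun i hi j hj hij => ?_, fun i hi => ?_⟩
  · by_cases h1 : i < a <;> by_cases h2 : j < a <;> simp only [h1, h2, if_true, if_false] at hij
    · have := h.1 _ (by omega) _ (by omega) hij
      omega
    · have := h.1 _ (by omega) _ (by omega) hij
      omega
    · have := h.1 _ (by omega) _ (by omega) hij
      omega
    · exact h.1 _ (by omega) _ (by omega) hij
  · by_cases h1 : i + 1 < a
    · have h2 : i < a := by omega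
      simp only [h1, h2, if_true]
      have := h.2 (a - 1 - (i + 1)) (by omega)
      have e : a - 1 - (i + 1) + 1 = a - 1 - i := by omega
      rw [e] at this
      exact this.symm
    · by_cases h2 : i < a
      · have e : i = a - 1 := by omega
        have e2 : a - 1 - i = 0 := by omega
        have e3 : i + 1 = a := by omega
        simp only [h1, h2, if_true, if_false, e2]
        rw [e3]; exact hadj
      · simp only [h1, h2, if_false]
        exact h.2 i hi

lemma PF.cons {p : ℕ} {f : ℕ → V} (h : PF G p f) {w : V} (hw : ∀ i < p, f i ≠ w)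
    (hadj : G.Adj w (f 0)) : PF G (p + 1) (fun i => if i = 0 then w else f (i - 1)) := by
  refine ⟨fun i hi j hj hij => ?_, fun i hi => ?_⟩
  · by_cases h1 : i = 0 <;> by_cases h2 : j = 0 <;> simp only [h1, h2, if_true, if_false] at hij
    · omega
    · exact absurd hij.symm (hw _ (by omega))
    · exact absurd hij (hw _ (by omega))
    · have := h.1 _ (by omega) _ (by omega) hij
      omega
  · by_cases h1 : i = 0
    · subst h1; simpa using hadj
    · have h2 : i + 1 ≠ 0 := by omega
      simp only [h1, h2, if_false]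
      have := h.2 (i - 1) (by omega)
      have e : i - 1 + 1 = i + 1 - 1 := by omega
      rw [e] at this
      exact this

lemma PF.cyc {m : ℕ} {c : ℕ → V} (h : PF G m c) (hclose : G.Adj (c (m - 1)) (c 0)) {j : ℕ}
    (hj : j < m) {w : V} (hw : ∀ i < m, c i ≠ w) (hwj : G.Adj w (c j)) :
    PF G (m + 1) (fun i => if i = 0 then w else c ((j + (i - 1)) % m)) := by
  have hm : 0 < m := by omega
  have key : PF G m (fun i => c ((j + i) % m)) := by
    refine ⟨fun i hi l hl hil => ?_, fun i hi => ?_⟩
    · have h1 := h.1 _ (Nat.mod_lt _ hm) _ (Nat.mod_lt _ hm) hil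
      have h2 : (j + i) ≡ (j + l) [MOD m] := h1
      have h3 : i ≡ l [MOD m] := Nat.ModEq.add_left_cancel' j h2
      have := Nat.ModEq.eq_of_lt_of_lt h3 hi hl
      exact this
    · by_cases h1 : (j + i) % m = m - 1
      · have e : (j + (i + 1)) % m = 0 := by
          have : (j + (i + 1)) % m = ((j + i) % m + 1) % m := by
            rw [Nat.mod_add_mod]; rfl
          rw [this, h1, Nat.sub_add_cancel hm, Nat.mod_self]
        simp only [h1, e]
        exact hclose
      · have hlt := Nat.mod_lt (j + i) hm
        have e : (j + (i + 1)) % m = (j + i) % m + 1 := by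
          have : (j + (i + 1)) % m = ((j + i) % m + 1) % m := by
            rw [Nat.mod_add_mod]; rfl
          rw [this, Nat.mod_eq_of_lt (by omega)]
        simp only [e]
        exact h.2 _ (by omega)
  have := key.cons (w := w) (fun i hi => hw _ (Nat.mod_lt _ hm))
    (by simpa [Nat.mod_eq_of_lt hj] using hwj)
  exact this

end paths

section main

variable [Fintype V] [DecidableEq V] {G : SimpleGraph V} {p k : ℕ} {f : ℕ → V} {u w : V}

lemma cs_seg (hf : PF G p f) {a b : ℕ} (hab : a ≤ b) (hb : b < p) :
    CS G ((Finset.Icc a b).image f) := by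
  induction b, hab using Nat.le_induction with
  | base => simpa using CS.single (G := G) (f a)
  | succ b hab ih =>
    have h1 := ih (by omega)
    have h2 : (Finset.Icc a (b + 1)).image f = insert (f (b + 1)) ((Finset.Icc a b).image f) := by
      rw [← Finset.image_insert]
      congr 1
      ext x
      simp only [Finset.mem_Icc, Finset.mem_insert]
      omega
    rw [h2]
    exact CS.add h1 (Finset.mem_image.2 ⟨b, by simp [hab], rfl⟩) (hf.2 b hb)

lemma mem_seg {a b i : ℕ} (h1 : a ≤ i) (h2 : i ≤ b) : f i ∈ (Finset.Icc a b).image f :=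
  Finset.mem_image.2 ⟨i, Finset.mem_Icc.2 ⟨h1, h2⟩, rfl⟩

lemma notMem_seg (hf : PF G p f) {a b i : ℕ} (hb : b < p) (hi : i < p) (h : i < a ∨ b < i) :
    f i ∉ (Finset.Icc a b).image f := by
  intro hmem
  obtain ⟨l, hl, hle⟩ := Finset.mem_image.1 hmem
  rw [Finset.mem_Icc] at hl
  have := hf.1 l (by omega) i hi hle
  omega

lemma notMem_seg' {a b : ℕ} (hb : b < p) (hw : ∀ i < p, f i ≠ w) :
    w ∉ (Finset.Icc a b).image f := by
  intro hmem
  obtain ⟨l, hl, hle⟩ := Finset.mem_image.1 hmem
  rw [Finset.mem_Icc] at hl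
  exact hw l (by omega) hle

lemma three (hyp : Hyp G k) (hf : PF G p f) (hw : ∀ i < p, f i ≠ w) {j : ℕ}
    (hj1 : 1 ≤ j) (hj2 : j + 2 ≤ p) (hwj : G.Adj w (f j)) : 2 ≤ k := by
  have hS := cs_seg hf (a := 1) (b := p - 2) (by omega) (by omega)
  have h := hyp _ {f 0, f (p - 1), w} hS ?_ ?_
  · rw [Finset.card_insert_of_notMem, Finset.card_insert_of_notMem, Finset.card_singleton] at h
    · omega
    · simp only [Finset.mem_singleton]; exact hw _ (by omega)
    · simp only [Finset.mem_insert, Finset.mem_singleton]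
      push Not
      exact ⟨fun h => by have := hf.1 _ (by omega) _ (by omega) h; omega, hw _ (by omega)⟩
  · rw [Finset.disjoint_right]
    intro x hx
    simp only [Finset.mem_insert, Finset.mem_singleton] at hx
    rcases hx with rfl | rfl | rfl
    · exact notMem_seg hf (by omega) (by omega) (by omega)
    · exact notMem_seg hf (by omega) (by omega) (by omega)
    · exact notMem_seg' (by omega) hw
  · intro x hx
    simp only [Finset.mem_insert, Finset.mem_singleton] at hx
    rcases hx with rfl | rfl | rfl
    · exact ⟨f 1, mem_seg (by omega) (by omega), (hf.2 0 (by omega)).symm⟩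
    · refine ⟨f (p - 2), mem_seg (by omega) (by omega), ?_⟩
      have := hf.2 (p - 2) (by omega)
      rwa [show p - 2 + 1 = p - 1 by omega] at this
    · exact ⟨f j, mem_seg (by omega) (by omega), hwj.symm⟩

lemma four (hyp : Hyp G k) (hf : PF G p f) (hw : ∀ i < p, f i ≠ w) {a j : ℕ}
    (ha1 : 2 ≤ a) (ha2 : a + 2 ≤ p) (hadj : G.Adj (f 0) (f a))
    (hj1 : 2 ≤ j) (hj2 : j + 2 ≤ p) (hwj : G.Adj w (f j)) : 3 ≤ k := by
  have hS := cs_seg hf (a := 2) (b := p - 2) (by omega) (by omega)
  have h := hyp _ {f 0, f 1, f (p - 1), w} hS ?_ ?_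
  · rw [Finset.card_insert_of_notMem, Finset.card_insert_of_notMem,
      Finset.card_insert_of_notMem, Finset.card_singleton] at h
    · omega
    · simp only [Finset.mem_singleton]; exact hw _ (by omega)
    · simp only [Finset.mem_insert, Finset.mem_singleton]
      push Not
      exact ⟨fun h => by have := hf.1 _ (by omega) _ (by omega) h; omega, hw _ (by omega)⟩
    · simp only [Finset.mem_insert, Finset.mem_singleton]
      push Not
      exact ⟨fun h => by have := hf.1 _ (by omega) _ (by omega) h; omega,
        fun h => by have := hf.1 _ (by omega) _ (by omega) h; omega, hw _ (by omega)⟩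
  · rw [Finset.disjoint_right]
    intro x hx
    simp only [Finset.mem_insert, Finset.mem_singleton] at hx
    rcases hx with rfl | rfl | rfl | rfl
    · exact notMem_seg hf (by omega) (by omega) (by omega)
    · exact notMem_seg hf (by omega) (by omega) (by omega)
    · exact notMem_seg hf (by omega) (by omega) (by omega)
    · exact notMem_seg' (by omega) hw
  · intro x hx
    simp only [Finset.mem_insert, Finset.mem_singleton] at hx
    rcases hx with rfl | rfl | rfl | rfl
    · exact ⟨f a, mem_seg (by omega) (by omega), hadj.symm⟩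
    · exact ⟨f 2, mem_seg (by omega) (by omega), (hf.2 1 (by omega)).symm⟩
    · refine ⟨f (p - 2), mem_seg (by omega) (by omega), ?_⟩
      have := hf.2 (p - 2) (by omega)
      rwa [show p - 2 + 1 = p - 1 by omega] at this
    · exact ⟨f j, mem_seg (by omega) (by omega), hwj.symm⟩

lemma five (hyp : Hyp G k) (hf : PF G p f) (hw : ∀ i < p, f i ≠ w) {a b j : ℕ}
    (ha1 : 2 ≤ a) (ha2 : a + 3 ≤ p) (hadj : G.Adj (f 0) (f a))
    (hb1 : 2 ≤ b) (hb2 : b + 3 ≤ p) (hbdj : G.Adj (f (p - 1)) (f b))
    (hj1 : 2 ≤ j) (hj2 : j + 3 ≤ p) (hwj : G.Adj w (f j)) : 4 ≤ k := by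
  have hS := cs_seg hf (a := 2) (b := p - 3) (by omega) (by omega)
  have h := hyp _ {f 0, f 1, f (p - 2), f (p - 1), w} hS ?_ ?_
  · rw [Finset.card_insert_of_notMem, Finset.card_insert_of_notMem,
      Finset.card_insert_of_notMem, Finset.card_insert_of_notMem, Finset.card_singleton] at h
    · omega
    · simp only [Finset.mem_singleton]; exact hw _ (by omega)
    · simp only [Finset.mem_insert, Finset.mem_singleton]
      push Not
      exact ⟨fun h => by have := hf.1 _ (by omega) _ (by omega) h; omega, hw _ (by omega)⟩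
    · simp only [Finset.mem_insert, Finset.mem_singleton]
      push Not
      exact ⟨fun h => by have := hf.1 _ (by omega) _ (by omega) h; omega,
        fun h => by have := hf.1 _ (by omega) _ (by omega) h; omega, hw _ (by omega)⟩
    · simp only [Finset.mem_insert, Finset.mem_singleton]
      push Not
      exact ⟨fun h => by have := hf.1 _ (by omega) _ (by omega) h; omega,
        fun h => by have := hf.1 _ (by omega) _ (by omega) h; omega,
        fun h => by have := hf.1 _ (by omega) _ (by omega) h; omega, hw _ (by omega)⟩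
  · rw [Finset.disjoint_right]
    intro x hx
    simp only [Finset.mem_insert, Finset.mem_singleton] at hx
    rcases hx with rfl | rfl | rfl | rfl | rfl
    · exact notMem_seg hf (by omega) (by omega) (by omega)
    · exact notMem_seg hf (by omega) (by omega) (by omega)
    · exact notMem_seg hf (by omega) (by omega) (by omega)
    · exact notMem_seg hf (by omega) (by omega) (by omega)
    · exact notMem_seg' (by omega) hw
  · intro x hx
    simp only [Finset.mem_insert, Finset.mem_singleton] at hx
    rcases hx with rfl | rfl | rfl | rfl | rfl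
    · exact ⟨f a, mem_seg (by omega) (by omega), hadj.symm⟩
    · exact ⟨f 2, mem_seg (by omega) (by omega), (hf.2 1 (by omega)).symm⟩
    · refine ⟨f (p - 3), mem_seg (by omega) (by omega), ?_⟩
      have := hf.2 (p - 3) (by omega)
      rwa [show p - 3 + 1 = p - 2 by omega] at this
    · exact ⟨f b, mem_seg (by omega) (by omega), hbdj.symm⟩
    · exact ⟨f j, mem_seg (by omega) (by omega), hwj.symm⟩

/-- All neighbours of the first vertex of a longest path lie on the path. -/
lemma nbr_on (hf : PF G p f) (hmax : ∀ q g, PF G q g → q ≤ p) {x : V} (hx : G.Adj (f 0) x) :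
    ∃ i < p, f i = x := by
  by_contra hcon
  push Not at hcon
  have := hmax _ _ (hf.cons (w := x) hcon hx.symm)
  omega

/-- A longest path which is not Hamiltonian cannot be closed up by crossing chords. -/
lemma no_cross (hf : PF G p f) (hmax : ∀ q g, PF G q g → q ≤ p) {j : ℕ} (hj : j < p)
    (hw : ∀ i < p, f i ≠ w) (hwj : G.Adj w (f j)) {i : ℕ} (hi : i + 1 < p)
    (h1 : G.Adj (f 0) (f (i + 1))) (h2 : G.Adj (f (p - 1)) (f i)) : False := by
  -- cycle `f 0 ... f i f (p-1) ... f (i+1)`
  set c : ℕ → V := fun t => if t ≤ i then f t else f (p + i - t) with hc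
  have hcPF : PF G p c := by
    refine ⟨fun s hs t ht hst => ?_, fun t ht => ?_⟩
    · by_cases a1 : s ≤ i <;> by_cases a2 : t ≤ i <;> simp only [hc, a1, a2, if_true, if_false] at hst
      · exact hf.1 _ hs _ ht hst
      · have := hf.1 _ (by omega) _ (by omega) hst
        omega
      · have := hf.1 _ (by omega) _ (by omega) hst
        omega
      · have := hf.1 _ (by omega) _ (by omega) hst
        omega
    · by_cases a1 : t + 1 ≤ i
      · have a2 : t ≤ i := by omega
        simp only [hc, a1, a2, if_true]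
        exact hf.2 t (by omega)
      · by_cases a2 : t ≤ i
        · have e1 : t = i := by omega
          have e2 : p + i - (t + 1) = p - 1 := by omega
          simp only [hc, a1, a2, if_true, if_false, e2]
          rw [e1]; exact h2.symm
        · simp only [hc, a1, a2, if_false]
          have := hf.2 (p + i - (t + 1)) (by omega)
          rw [show p + i - (t + 1) + 1 = p + i - t by omega] at this
          exact this.symm
  have hclose : G.Adj (c (p - 1)) (c 0) := by
    have e1 : ¬ (p - 1 ≤ i) := by omega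
    have e2 : p + i - (p - 1) = i + 1 := by omega
    simp only [hc, e1, if_false, e2, Nat.zero_le, if_true]
    exact h1.symm
  have hwc : ∀ t < p, c t ≠ w := by
    intro t ht
    by_cases a1 : t ≤ i <;> simp only [hc, a1, if_true, if_false]
    · exact hw _ ht
    · exact hw _ (by omega)
  -- position of `f j` on the cycle
  obtain ⟨t, ht, htj⟩ : ∃ t < p, c t = f j := by
    by_cases a1 : j ≤ i
    · exact ⟨j, hj, by simp only [hc, a1, if_true]⟩
    · refine ⟨p + i - j, by omega, ?_⟩
      have a2 : ¬ (p + i - j ≤ i) := by omega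
      simp only [hc, a2, if_false]
      congr 1; omega
  have := hmax _ _ (hcPF.cyc hclose ht hwc (by rw [htj]; exact hwj))
  omega

end main

section degrees

variable [Fintype V] [DecidableEq V] {G : SimpleGraph V} [DecidableRel G.Adj]
  {p k : ℕ} {f : ℕ → V} {u w : V}

/-- A neighbour of the first vertex at an index outside a small set. -/
lemma exists_idx (hf : PF G p f) (hmax : ∀ q g, PF G q g → q ≤ p) (X : Finset ℕ)
    (hX : X.card < G.degree (f 0)) : ∃ a < p, a ∉ X ∧ G.Adj (f 0) (f a) := by
  by_contra hcon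
  push Not at hcon
  have hsub : G.neighborFinset (f 0) ⊆ X.image f := by
    intro x hx
    rw [SimpleGraph.mem_neighborFinset] at hx
    obtain ⟨i, hi, rfl⟩ := nbr_on hf hmax hx
    by_cases hiX : i ∈ X
    · exact Finset.mem_image_of_mem _ hiX
    · exact absurd hx (hcon i hi hiX)
  have h1 := Finset.card_le_card hsub
  rw [SimpleGraph.card_neighborFinset_eq_degree] at h1
  have h2 := Finset.card_image_le (s := X) (f := f)
  omega

lemma not_adj_ends (hf : PF G p f) (hmax : ∀ q g, PF G q g → q ≤ p) {j : ℕ} (hj : j < p)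
    (hw : ∀ i < p, f i ≠ w) (hwj : G.Adj w (f j)) : ¬ G.Adj (f 0) (f (p - 1)) := by
  intro hadj
  by_cases hp : 2 ≤ p
  · have h1 := hf.2 (p - 2) (by omega)
    rw [show p - 2 + 1 = p - 1 by omega] at h1
    refine no_cross hf hmax hj hw hwj (i := p - 2) (by omega) ?_ h1.symm
    rwa [show p - 2 + 1 = p - 1 by omega]
  · have : p - 1 = 0 := by omega
    rw [this] at hadj
    exact hadj.ne rfl

lemma attach_mid (hf : PF G p f) (hmax : ∀ q g, PF G q g → q ≤ p) {j : ℕ} (hj : j < p)
    (hw : ∀ i < p, f i ≠ w) (hwj : G.Adj w (f j)) : 1 ≤ j ∧ j + 2 ≤ p := by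
  constructor
  · by_contra h
    have : j = 0 := by omega
    subst this
    obtain ⟨i, hi, hi'⟩ := nbr_on hf hmax hwj.symm
    exact hw i hi hi'
  · by_contra h
    have hjp : j = p - 1 := by omega
    have hr := hf.rev
    have : G.Adj (f (p - 1 - 0)) w := by rw [Nat.sub_zero, ← hjp]; exact hwj.symm
    obtain ⟨i, hi, hi'⟩ := nbr_on hr hmax this
    exact hw _ (by omega) hi'

/-- Reversal keeps the outside vertex outside. -/
lemma rev_out {w : V} (hw : ∀ i < p, f i ≠ w) : ∀ i < p, f (p - 1 - i) ≠ w :=
  fun i hi => hw _ (by omega)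

lemma case_two (hyp : Hyp G k) (hf : PF G p f) (hmax : ∀ q g, PF G q g → q ≤ p) {j : ℕ}
    (hj : j < p) (hw : ∀ i < p, f i ≠ w) (hwj : G.Adj w (f j))
    (h0 : 2 ≤ G.degree (f 0)) (hl : 2 ≤ G.degree (f (p - 1))) : 3 ≤ k := by
  obtain ⟨hj1, hj2⟩ := attach_mid hf hmax hj hw hwj
  have hne := not_adj_ends hf hmax hj hw hwj
  obtain ⟨a, hap, haX, hadj⟩ := exists_idx hf hmax {1} (by rw [Finset.card_singleton]; omega)
  have ha0 : a ≠ 0 := by rintro rfl; exact hadj.ne rfl
  have hap' : a ≠ p - 1 := by rintro rfl; exact hne hadj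
  have ha1 : a ≠ 1 := by simpa using haX
  by_cases hj' : 2 ≤ j
  · exact four hyp hf hw (a := a) (by omega) (by omega) hadj hj' hj2 hwj
  · have hj1' : j = 1 := by omega
    have hr := hf.rev
    have hwr := rev_out hw
    have hwj' : G.Adj w (f (p - 1 - (p - 2))) := by
      rw [show p - 1 - (p - 2) = j by omega]; exact hwj
    have hl' : 2 ≤ G.degree ((fun i => f (p - 1 - i)) 0) := by simpa using hl
    obtain ⟨b, hbp, hbX, hbdj⟩ := exists_idx hr hmax {1} (by rw [Finset.card_singleton]; exact hl')
    have hne' := not_adj_ends hr hmax (j := p - 2) (by omega) hwr hwj'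
    have hb0 : b ≠ 0 := by rintro rfl; exact hbdj.ne rfl
    have hbp' : b ≠ p - 1 := by rintro rfl; exact hne' hbdj
    have hb1 : b ≠ 1 := by simpa using hbX
    exact four hyp hr hwr (a := b) (by omega) (by omega) hbdj (j := p - 2) (by omega) (by omega) hwj'

lemma five_core (hyp : Hyp G k) (hf : PF G p f) (hmax : ∀ q g, PF G q g → q ≤ p) {j : ℕ}
    (hj1 : 2 ≤ j) (hj2 : j + 3 ≤ p) (hw : ∀ i < p, f i ≠ w) (hwj : G.Adj w (f j))
    (h0 : 3 ≤ G.degree (f 0)) (hl : 3 ≤ G.degree (f (p - 1))) : 4 ≤ k := by
  have hne := not_adj_ends hf hmax (j := j) (by omega) hw hwj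
  have hr := hf.rev
  have hwr := rev_out hw
  have hc : ({1, p - 2} : Finset ℕ).card ≤ 2 := Finset.card_le_two
  obtain ⟨a, hap, haX, hadj⟩ := exists_idx hf hmax {1, p - 2} (by omega)
  have hl' : 3 ≤ G.degree ((fun i => f (p - 1 - i)) 0) := by simpa using hl
  obtain ⟨b, hbp, hbX, hbdj⟩ := exists_idx hr hmax {1, p - 2} (lt_of_le_of_lt hc hl')
  simp only [Finset.mem_insert, Finset.mem_singleton, not_or] at haX hbX
  have ha0 : a ≠ 0 := by rintro rfl; exact hadj.ne rfl
  have hap' : a ≠ p - 1 := by rintro rfl; exact hne hadj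
  have hb0 : b ≠ 0 := by rintro rfl; exact hbdj.ne rfl
  simp only [Nat.sub_zero] at hbdj
  have hbp' : b ≠ p - 1 := by
    rintro rfl
    rw [Nat.sub_self] at hbdj
    exact hne hbdj.symm
  exact five hyp hf hw (a := a) (b := p - 1 - b) (by omega) (by omega) hadj (by omega) (by omega)
    hbdj hj1 hj2 hwj

lemma case_three_one (hyp : Hyp G k) (hf : PF G p f) (hmax : ∀ q g, PF G q g → q ≤ p)
    (hdeg : ∀ v, v ≠ u → 3 ≤ G.degree v)
    (hw : ∀ i < p, f i ≠ w) (hwj : G.Adj w (f 1)) (h0 : f 0 ≠ u) (hl : f (p - 1) ≠ u)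
    (hp : 3 ≤ p) : 4 ≤ k := by
  have hne := not_adj_ends hf hmax (j := 1) (by omega) hw hwj
  by_cases hwu : w = u
  · -- rotate
    have hc : ({1, 3} : Finset ℕ).card ≤ 2 := Finset.card_le_two
    obtain ⟨a, hap, haX, hadj⟩ := exists_idx hf hmax {1, 3} (by have := hdeg _ h0; omega)
    simp only [Finset.mem_insert, Finset.mem_singleton, not_or] at haX
    have ha0 : a ≠ 0 := by rintro rfl; exact hadj.ne rfl
    have hap' : a ≠ p - 1 := by rintro rfl; exact hne hadj
    have hg := hf.rot (by omega) hap hadj
    have hwg : ∀ i < p, (if i < a then f (a - 1 - i) else f i) ≠ w := by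
      intro i hi
      split_ifs with h
      · exact hw _ (by omega)
      · exact hw _ hi
    have hwg' : G.Adj w ((fun i => if i < a then f (a - 1 - i) else f i) (a - 2)) := by
      have e1 : a - 2 < a := by omega
      have e2 : a - 1 - (a - 2) = 1 := by omega
      simp only [e1, if_true, e2]; exact hwj
    by_cases ha2 : a = 2
    · exfalso
      subst ha2
      have := attach_mid hg hmax (j := 0) (by omega) hwg (by simpa using hwg')
      omega
    · refine five_core hyp hg hmax (j := a - 2) (by omega) (by omega) hwg hwg' ?_ ?_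
      · have e1 : 0 < a := by omega
        rw [if_pos e1]
        apply hdeg
        rw [← hwu]; exact hw _ (by omega)
      · have e1 : ¬ (p - 1 < a) := by omega
        rw [if_neg e1]
        exact hdeg _ hl
  · -- exchange `w` and `f 0`
    have hc : ({1, p - 2} : Finset ℕ).card ≤ 2 := Finset.card_le_two
    obtain ⟨a, hap, haX, hadj⟩ := exists_idx hf hmax {1, p - 2} (by have := hdeg _ h0; omega)
    simp only [Finset.mem_insert, Finset.mem_singleton, not_or] at haX
    have ha0 : a ≠ 0 := by rintro rfl; exact hadj.ne rfl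
    have hap' : a ≠ p - 1 := by rintro rfl; exact hne hadj
    set g : ℕ → V := fun i => if i = 0 then w else f i with hg
    have hgPF : PF G p g := by
      refine ⟨fun i hi l hl' hil => ?_, fun i hi => ?_⟩
      · by_cases h1 : i = 0 <;> by_cases h2 : l = 0 <;>
          simp only [hg, h1, h2, if_true, if_false] at hil
        · omega
        · exact absurd hil.symm (hw _ (by omega))
        · exact absurd hil (hw _ (by omega))
        · exact hf.1 _ (by omega) _ (by omega) hil
      · by_cases h1 : i = 0
        · subst h1; simpa [hg] using hwj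
        · have h2 : i + 1 ≠ 0 := by omega
          simp only [hg, h1, h2, if_false]
          exact hf.2 i hi
    have hout : ∀ i < p, g i ≠ f 0 := by
      intro i hi
      by_cases h1 : i = 0
      · simp only [hg, h1, if_true]; exact (hw 0 (by omega)).symm
      · simp only [hg, h1, if_false]
        intro h
        have := hf.1 _ hi _ (by omega) h
        omega
    refine five_core hyp hgPF hmax (w := f 0) (j := a) (by omega) (by omega) hout ?_ ?_ ?_
    · simp only [hg, ha0, if_false]; exact hadj
    · have e : g 0 = w := if_pos rfl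
      rw [e]; exact hdeg _ hwu
    · have e : g (p - 1) = f (p - 1) := if_neg (by omega)
      rw [e]; exact hdeg _ hl

lemma case_three (hyp : Hyp G k) (hf : PF G p f) (hmax : ∀ q g, PF G q g → q ≤ p)
    (hdeg : ∀ v, v ≠ u → 3 ≤ G.degree v) {j : ℕ} (hj : j < p)
    (hw : ∀ i < p, f i ≠ w) (hwj : G.Adj w (f j)) (h0 : f 0 ≠ u) (hl : f (p - 1) ≠ u) :
    4 ≤ k := by
  obtain ⟨hj1, hj2⟩ := attach_mid hf hmax hj hw hwj
  by_cases h1 : j = 1
  · subst h1
    exact case_three_one hyp hf hmax hdeg hw hwj h0 hl (by omega)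
  by_cases h2 : j = p - 2
  · have hr := hf.rev
    refine case_three_one hyp hr hmax hdeg (rev_out hw) (u := u) ?_ ?_ ?_ (by omega)
    · rw [show p - 1 - 1 = j by omega]; exact hwj
    · simpa using hl
    · simpa using h0
  · exact five_core hyp hf hmax (j := j) (by omega) (by omega) hw hwj (hdeg _ h0) (hdeg _ hl)

end degrees

section counting

variable [Fintype V] [DecidableEq V] {G : SimpleGraph V} [DecidableRel G.Adj]
  {p k : ℕ} {f : ℕ → V} {u w : V}

lemma cs_star (G : SimpleGraph V) (a : V) (X : Finset V) (hX : ∀ x ∈ X, G.Adj a x) :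
    CS G (insert a X) := by
  induction X using Finset.induction_on with
  | empty => simpa using CS.single (G := G) a
  | insert y X hy ih =>
    have h1 := ih (fun x hx => hX x (Finset.mem_insert_of_mem hx))
    rw [Finset.insert_comm]
    exact CS.add h1 (Finset.mem_insert_self _ _) (hX y (Finset.mem_insert_self _ _))

/-- Star with some expanded neighbours. -/
lemma spread (hyp : Hyp G k) (a : V) (X : Finset V) (hX : X ⊆ G.neighborFinset a)
    (O : Finset V) (hO : ∀ o ∈ O, o ≠ a ∧ ¬ G.Adj a o ∧ ∃ x ∈ X, G.Adj x o) :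
    G.degree a + O.card ≤ k + 1 + X.card := by
  have hS := cs_star G a X (fun x hx => by simpa using hX hx)
  have hdis : Disjoint (G.neighborFinset a \ X) O := by
    rw [Finset.disjoint_left]
    intro z hz hzO
    have h1 : z ∈ G.neighborFinset a := (Finset.mem_sdiff.1 hz).1
    rw [SimpleGraph.mem_neighborFinset] at h1
    exact (hO z hzO).2.1 h1
  have h := hyp _ ((G.neighborFinset a \ X) ∪ O) hS ?_ ?_
  · rw [Finset.card_union_of_disjoint hdis, Finset.card_sdiff_of_subset hX,
      SimpleGraph.card_neighborFinset_eq_degree] at h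
    omega
  · rw [Finset.disjoint_left]
    intro z hz hzF
    rcases Finset.mem_union.1 hzF with h | h
    · obtain ⟨h1, h2⟩ := Finset.mem_sdiff.1 h
      rw [SimpleGraph.mem_neighborFinset] at h1
      rcases Finset.mem_insert.1 hz with h3 | h3
      · rw [h3] at h1; exact h1.ne rfl
      · exact h2 h3
    · obtain ⟨h1, h2, _⟩ := hO z h
      rcases Finset.mem_insert.1 hz with h3 | h3
      · exact h1 h3
      · exact h2 (by simpa using hX h3)
  · intro z hz
    rcases Finset.mem_union.1 hz with h | h
    · obtain ⟨h1, _⟩ := Finset.mem_sdiff.1 h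
      rw [SimpleGraph.mem_neighborFinset] at h1
      exact ⟨a, Finset.mem_insert_self _ _, h1⟩
    · obtain ⟨_, _, x, hx, hxz⟩ := hO z h
      exact ⟨x, Finset.mem_insert_of_mem hx, hxz⟩

/-- Two vertices with a common neighbour. -/
lemma join_common (hyp : Hyp G k) {a b c : V} (hab : a ≠ b) (hnab : ¬ G.Adj a b)
    (hac : G.Adj a c) (hbc : G.Adj b c) :
    (G.neighborFinset a ∪ G.neighborFinset b).card ≤ k + 2 := by
  have hS : CS G (insert b (insert c {a})) := by
    refine CS.add (CS.add (CS.single a) (Finset.mem_singleton_self _) hac)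
      (Finset.mem_insert_self _ _) hbc.symm
  have h := hyp _ ((G.neighborFinset a ∪ G.neighborFinset b).erase c) hS ?_ ?_
  · rw [Finset.card_erase_of_mem (by simp [hac])] at h
    omega
  · rw [Finset.disjoint_left]
    intro z hz hzF
    obtain ⟨h1, h2⟩ := Finset.mem_erase.1 hzF
    simp only [Finset.mem_union, SimpleGraph.mem_neighborFinset] at h2
    simp only [Finset.mem_insert, Finset.mem_singleton] at hz
    rcases hz with rfl | rfl | rfl
    · rcases h2 with h2 | h2
      · exact hnab h2
      · exact h2.ne rfl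
    · exact h1 rfl
    · rcases h2 with h2 | h2
      · exact h2.ne rfl
      · exact hnab h2.symm
  · intro z hz
    obtain ⟨h1, h2⟩ := Finset.mem_erase.1 hz
    simp only [Finset.mem_union, SimpleGraph.mem_neighborFinset] at h2
    rcases h2 with h2 | h2
    · exact ⟨a, by simp, h2⟩
    · exact ⟨b, by simp, h2⟩

/-- Two ends of a longest path without a common neighbour. -/
lemma join_far (hyp : Hyp G k) (hf : PF G p f) (hmax : ∀ q g, PF G q g → q ≤ p) {j : ℕ}
    (hj : j < p) (hw : ∀ i < p, f i ≠ w) (hwj : G.Adj w (f j))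
    (hno : ∀ c, G.Adj (f 0) c → ¬ G.Adj (f (p - 1)) c) :
    G.degree (f 0) + G.degree (f (p - 1)) ≤ k + 3 := by
  obtain ⟨hj1, hj2⟩ := attach_mid hf hmax hj hw hwj
  have hne := not_adj_ends hf hmax hj hw hwj
  -- largest index of a neighbour of `f 0`
  have hA : ((Finset.range p).filter fun i => G.Adj (f 0) (f i)).Nonempty :=
    ⟨1, by simp only [Finset.mem_filter, Finset.mem_range]; exact ⟨by omega, hf.2 0 (by omega)⟩⟩
  obtain ⟨i, hi, himax⟩ := Finset.exists_max_image _ id hA
  simp only [Finset.mem_filter, Finset.mem_range, id] at hi himax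
  have hlast : G.Adj (f (p - 1)) (f (p - 2)) := by
    have := hf.2 (p - 2) (by omega)
    rw [show p - 2 + 1 = p - 1 by omega] at this
    exact this.symm
  have hi0 : i ≠ 0 := by rintro rfl; exact hi.2.ne rfl
  have hip : i ≠ p - 1 := by rintro rfl; exact hne hi.2
  have hip2 : i ≠ p - 2 := by rintro rfl; exact hno _ hi.2 hlast
  have hB : ((Finset.range p).filter fun l => i < l ∧ G.Adj (f (p - 1)) (f l)).Nonempty :=
    ⟨p - 2, by
      simp only [Finset.mem_filter, Finset.mem_range]; exact ⟨by omega, by omega, hlast⟩⟩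
  obtain ⟨l, hl, hlmin⟩ := Finset.exists_min_image _ id hB
  simp only [Finset.mem_filter, Finset.mem_range, id] at hl hlmin
  have hlp : l ≠ p - 1 := by rintro rfl; exact hl.2.2.ne rfl
  have hS0 := cs_seg hf (a := i) (b := l) (by omega) (by omega)
  have hS : CS G (insert (f (p - 1)) (insert (f 0) ((Finset.Icc i l).image f))) :=
    CS.add (CS.add hS0 (mem_seg (le_refl i) (by omega)) hi.2.symm)
      (Finset.mem_insert_of_mem (mem_seg (by omega) (le_refl l))) hl.2.2.symm
  have hdis : Disjoint ((G.neighborFinset (f 0)).erase (f i))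
      ((G.neighborFinset (f (p - 1))).erase (f l)) := by
    rw [Finset.disjoint_left]
    intro z hz hz'
    have h1 := Finset.mem_of_mem_erase hz
    have h2 := Finset.mem_of_mem_erase hz'
    rw [SimpleGraph.mem_neighborFinset] at h1 h2
    exact hno z h1 h2
  have h := hyp _ (((G.neighborFinset (f 0)).erase (f i)) ∪
    ((G.neighborFinset (f (p - 1))).erase (f l))) hS ?_ ?_
  · rw [Finset.card_union_of_disjoint hdis, Finset.card_erase_of_mem (by simp [hi.2]),
      Finset.card_erase_of_mem (by simp [hl.2.2]), SimpleGraph.card_neighborFinset_eq_degree,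
      SimpleGraph.card_neighborFinset_eq_degree] at h
    omega
  · rw [Finset.disjoint_left]
    intro z hz hzF
    rw [Finset.mem_union, Finset.mem_erase, Finset.mem_erase, SimpleGraph.mem_neighborFinset,
      SimpleGraph.mem_neighborFinset] at hzF
    rcases Finset.mem_insert.1 hz with rfl | hz
    · rcases hzF with h | h
      · exact hne h.2
      · exact h.2.ne rfl
    rcases Finset.mem_insert.1 hz with rfl | hz
    · rcases hzF with h | h
      · exact h.2.ne rfl
      · exact hne h.2.symm
    obtain ⟨t, ht, rfl⟩ := Finset.mem_image.1 hz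
    rw [Finset.mem_Icc] at ht
    rcases hzF with h | h
    · have h1 := himax t ⟨by omega, h.2⟩
      have : t = i := by omega
      exact h.1 (by rw [this])
    · have hti : t ≠ i := by
        rintro rfl; exact hno _ hi.2 h.2
      have h1 := hlmin t ⟨by omega, by omega, h.2⟩
      have : t = l := by omega
      exact h.1 (by rw [this])
  · intro z hz
    rw [Finset.mem_union, Finset.mem_erase, Finset.mem_erase, SimpleGraph.mem_neighborFinset,
      SimpleGraph.mem_neighborFinset] at hz
    rcases hz with h | h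
    · exact ⟨f 0, by simp, h.2⟩
    · exact ⟨f (p - 1), by simp, h.2⟩

lemma ends_share (hyp : Hyp G k) (hk : 4 ≤ k) (hf : PF G p f) (hmax : ∀ q g, PF G q g → q ≤ p)
    {j : ℕ} (hj : j < p) (hw : ∀ i < p, f i ≠ w) (hwj : G.Adj w (f j))
    (h0 : k ≤ G.degree (f 0)) (hl : k ≤ G.degree (f (p - 1))) :
    G.degree (f 0) + G.degree (f (p - 1)) ≤
      k + 2 + (G.neighborFinset (f 0) ∩ G.neighborFinset (f (p - 1))).card := by
  obtain ⟨hj1, hj2⟩ := attach_mid hf hmax hj hw hwj
  have hne := not_adj_ends hf hmax hj hw hwj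
  by_cases hcom : ∃ c, G.Adj (f 0) c ∧ G.Adj (f (p - 1)) c
  · obtain ⟨c, hc1, hc2⟩ := hcom
    have hab : f 0 ≠ f (p - 1) := by
      intro h
      have := hf.1 _ (by omega) _ (by omega) h
      omega
    have h1 := join_common hyp hab hne hc1 hc2
    have h2 := Finset.card_union_add_card_inter (G.neighborFinset (f 0))
      (G.neighborFinset (f (p - 1)))
    rw [SimpleGraph.card_neighborFinset_eq_degree, SimpleGraph.card_neighborFinset_eq_degree] at h2
    omega
  · push Not at hcom
    have := join_far hyp hf hmax hj hw hwj hcom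
    omega

/-- Rotation at the far end. -/
lemma PF.rotR (hf : PF G p f) {i : ℕ} (hi : i + 1 < p) (h2 : G.Adj (f (p - 1)) (f i)) :
    PF G p (fun t => if t ≤ i then f t else f (p + i - t)) := by
  refine ⟨fun s hs t ht hst => ?_, fun t ht => ?_⟩
  · by_cases a1 : s ≤ i <;> by_cases a2 : t ≤ i <;> simp only [a1, a2, if_true, if_false] at hst
    · exact hf.1 _ hs _ ht hst
    · have := hf.1 _ (by omega) _ (by omega) hst
      omega
    · have := hf.1 _ (by omega) _ (by omega) hst
      omega
    · have := hf.1 _ (by omega) _ (by omega) hst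
      omega
  · by_cases a1 : t + 1 ≤ i
    · have a2 : t ≤ i := by omega
      simp only [a1, a2, if_true]
      exact hf.2 t (by omega)
    · by_cases a2 : t ≤ i
      · have e1 : t = i := by omega
        have e2 : p + i - (t + 1) = p - 1 := by omega
        simp only [a1, a2, if_true, if_false, e2]
        rw [e1]; exact h2.symm
      · simp only [a1, a2, if_false]
        have := hf.2 (p + i - (t + 1)) (by omega)
        rw [show p + i - (t + 1) + 1 = p + i - t by omega] at this
        exact this.symm

/-- A rotated end shares many neighbours with `f 0`. -/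
lemma rot_share (hyp : Hyp G k) (hk : 4 ≤ k) (hf : PF G p f) (hmax : ∀ q g, PF G q g → q ≤ p)
    {j : ℕ} (hj : j < p) (hw : ∀ i < p, f i ≠ w) (hwj : G.Adj w (f j))
    (h0 : k ≤ G.degree (f 0)) {i : ℕ} (hi : i + 1 < p) (h2 : G.Adj (f (p - 1)) (f i))
    (hl : k ≤ G.degree (f (i + 1))) :
    G.degree (f 0) ≤ 2 + (G.neighborFinset (f 0) ∩ G.neighborFinset (f (i + 1))).card := by
  have hg := hf.rotR hi h2
  set g : ℕ → V := fun t => if t ≤ i then f t else f (p + i - t) with hgdef
  have e0 : g 0 = f 0 := by simp [hgdef]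
  have el : g (p - 1) = f (i + 1) := by
    have a1 : ¬ (p - 1 ≤ i) := by omega
    simp only [hgdef, a1, if_false]
    congr 1; omega
  have hwg : ∀ t < p, g t ≠ w := by
    intro t ht
    by_cases a1 : t ≤ i <;> simp only [hgdef, a1, if_true, if_false]
    · exact hw _ ht
    · exact hw _ (by omega)
  obtain ⟨t, ht, htj⟩ : ∃ t < p, g t = f j := by
    by_cases a1 : j ≤ i
    · exact ⟨j, hj, by simp only [hgdef, a1, if_true]⟩
    · refine ⟨p + i - j, by omega, ?_⟩
      have a2 : ¬ (p + i - j ≤ i) := by omega
      simp only [hgdef, a2, if_false]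
      congr 1; omega
  have := ends_share hyp hk hg hmax ht hwg (by rw [htj]; exact hwj) (by rw [e0]; exact h0)
    (by rw [el]; exact hl)
  rw [e0, el] at this
  omega

end counting

section big

variable [Fintype V] [DecidableEq V] {G : SimpleGraph V} [DecidableRel G.Adj]
  {p k : ℕ} {f : ℕ → V} {u w : V}

/-- The counting argument, when the exceptional vertex is not a rotated end. -/
lemma count_core (hyp : Hyp G k) (hk : 4 ≤ k) (hf : PF G p f)
    (hmax : ∀ q g, PF G q g → q ≤ p) (hdeg : ∀ v, v ≠ u → k ≤ G.degree v)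
    {j : ℕ} (hj : j < p) (hw : ∀ i < p, f i ≠ w) (hwj : G.Adj w (f j))
    (h0 : f 0 ≠ u) (hl : f (p - 1) ≠ u)
    (hE : ∀ i, i + 1 < p → G.Adj (f (p - 1)) (f i) → f (i + 1) ≠ u) : False := by
  obtain ⟨hj1, hj2⟩ := attach_mid hf hmax hj hw hwj
  have hne := not_adj_ends hf hmax hj hw hwj
  -- the set of rotated ends
  set I := (Finset.range p).filter fun i => i + 1 < p ∧ G.Adj (f (p - 1)) (f i) with hI
  set E := I.image fun i => f (i + 1) with hEdef
  set N := G.neighborFinset (f 0) with hN
  have hNcard : N.card = G.degree (f 0) := SimpleGraph.card_neighborFinset_eq_degree _ _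
  have hd0 := hdeg _ h0
  have hIcard : G.degree (f (p - 1)) ≤ I.card := by
    rw [← SimpleGraph.card_neighborFinset_eq_degree]
    have hsub : G.neighborFinset (f (p - 1)) ⊆ I.image f := by
      intro x hx
      rw [SimpleGraph.mem_neighborFinset] at hx
      have hr := hf.rev
      obtain ⟨i, hi, hix⟩ := nbr_on hr hmax (x := x) (by simpa using hx)
      refine Finset.mem_image.2 ⟨p - 1 - i, ?_, hix⟩
      rw [hI, Finset.mem_filter, Finset.mem_range]
      have hi0 : i ≠ 0 := by
        rintro rfl
        simp only [Nat.sub_zero] at hix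
        rw [hix] at hx
        exact hx.ne rfl
      exact ⟨by omega, by omega, by rw [hix]; exact hx⟩
    exact (Finset.card_le_card hsub).trans Finset.card_image_le
  have hEcard : k ≤ E.card := by
    rw [hEdef, Finset.card_image_of_injOn]
    · exact (hdeg _ hl).trans hIcard
    · intro s hs t ht hst
      have hs' := (Finset.mem_filter.1 (Finset.mem_coe.1 hs)).2
      have ht' := (Finset.mem_filter.1 (Finset.mem_coe.1 ht)).2
      have := hf.1 _ hs'.1 _ ht'.1 hst
      omega
  -- elements of `E`
  have hEmem : ∀ e ∈ E, e ≠ f 0 ∧ ¬ G.Adj (f 0) e ∧ G.degree (f 0) ≤ 2 +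
      (N ∩ G.neighborFinset e).card := by
    intro e he
    obtain ⟨i, hi, rfl⟩ := Finset.mem_image.1 he
    rw [hI, Finset.mem_filter] at hi
    obtain ⟨_, hi1, hi2⟩ := hi
    refine ⟨fun h => ?_, fun h => ?_, ?_⟩
    · have := hf.1 _ hi1 _ (by omega) h
      omega
    · exact no_cross hf hmax hj hw hwj hi1 h hi2
    · exact rot_share hyp hk hf hmax hj hw hwj hd0 hi1 hi2 (hdeg _ (hE i hi1 hi2))
  -- each neighbour of `f 0` has few neighbours in `E`
  have hNx : ∀ x ∈ N, G.degree (f 0) + (E.filter fun e => G.Adj x e).card ≤ k + 2 := by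
    intro x hx
    have := spread hyp (f 0) {x} (Finset.singleton_subset_iff.2 hx) (E.filter fun e => G.Adj x e) (by
      intro o ho
      obtain ⟨ho1, ho2⟩ := Finset.mem_filter.1 ho
      exact ⟨(hEmem o ho1).1, (hEmem o ho1).2.1, x, Finset.mem_singleton_self _, ho2⟩)
    rw [Finset.card_singleton] at this
    omega
  -- double counting
  have hdc : ∑ x ∈ N, (E.filter fun e => G.Adj x e).card =
      ∑ e ∈ E, (N.filter fun x => G.Adj x e).card :=
    Finset.sum_card_bipartiteAbove_eq_sum_card_bipartiteBelow (fun x e => G.Adj x e)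
  have hNe : ∀ e, (N.filter fun x => G.Adj x e).card = (N ∩ G.neighborFinset e).card := by
    intro e
    congr 1
    ext x
    simp only [Finset.mem_filter, Finset.mem_inter, SimpleGraph.mem_neighborFinset]
    rw [G.adj_comm x e]
  set d := G.degree (f 0) with hd
  have hlow : E.card * (d - 2) ≤ ∑ e ∈ E, (N.filter fun x => G.Adj x e).card := by
    rw [← smul_eq_mul]
    apply Finset.card_nsmul_le_sum
    intro e he
    rw [hNe]
    have := (hEmem e he).2.2
    omega
  have hup : ∑ x ∈ N, (E.filter fun e => G.Adj x e).card ≤ N.card * (k + 2 - d) := by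
    rw [← smul_eq_mul]
    apply Finset.sum_le_card_nsmul
    intro x hx
    have := hNx x hx
    omega
  rw [hNcard] at hup
  have hineq : k * (d - 2) ≤ d * (k + 2 - d) :=
    (Nat.mul_le_mul_right _ hEcard).trans (hlow.trans (hdc ▸ hup))
  -- conclude `k = d = 4`
  have hdk : d = k := by
    by_contra hdk
    have h1 : k + 1 ≤ d := by omega
    have h2 : k + 2 - d ≤ 1 := by omega
    by_cases h3 : d ≤ k + 2
    · have h4 : k * (k + 1 - 2) ≤ k * (d - 2) := Nat.mul_le_mul_left _ (by omega)
      have h5 : d * (k + 2 - d) ≤ (k + 2) * 1 := Nat.mul_le_mul h3 h2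
      have h6 : k * (k + 1 - 2) = k * (k - 1) := by congr 1
      have h7 : 4 * (k - 1) ≤ k * (k - 1) := Nat.mul_le_mul_right _ hk
      omega
    · have h4 : k + 2 - d = 0 := by omega
      rw [h4, Nat.mul_zero] at hineq
      have h5 : 4 * (k - 1) ≤ k * (d - 2) := Nat.mul_le_mul hk (by omega)
      omega
  have hk4 : k = 4 := by
    rw [hdk] at hineq
    have h1 : k + 2 - k = 2 := by omega
    rw [h1] at hineq
    have h2 : k - 2 ≤ 2 := Nat.le_of_mul_le_mul_left hineq (by omega)
    omega
  subst hk4
  rw [hdk] at hlow hup hNcard hNx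
  -- each neighbour has exactly two neighbours in `E`
  have hsum : ∑ x ∈ N, (E.filter fun e => G.Adj x e).card = 8 := by
    have : 4 * 2 ≤ E.card * 2 := Nat.mul_le_mul_right _ hEcard
    omega
  have hle2 : ∀ x ∈ N, (E.filter fun e => G.Adj x e).card ≤ 2 := fun x hx => by
    have := hNx x hx; omega
  have heq2 : ∀ x ∈ N, (E.filter fun e => G.Adj x e).card = 2 := by
    have h := (Finset.sum_eq_sum_iff_of_le hle2).1 (by
      rw [hsum, Finset.sum_const, hNcard]; rfl)
    exact h
  obtain ⟨x, hx⟩ : N.Nonempty := by rw [← Finset.card_pos]; omega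
  set O := fun x => E.filter fun e => G.Adj x e with hO
  have hpair : ∀ y ∈ N, y ≠ x → 1 ≤ ((O x).filter fun e => G.Adj y e).card := by
    intro y hy hyx
    have h1 := spread hyp (f 0) {x, y} (by
      intro z hz
      rcases Finset.mem_insert.1 hz with rfl | hz
      · exact hx
      · rw [Finset.mem_singleton] at hz; rw [hz]; exact hy) (O x ∪ O y) (by
      intro o ho
      rcases Finset.mem_union.1 ho with ho | ho
      · obtain ⟨ho1, ho2⟩ := Finset.mem_filter.1 ho
        exact ⟨(hEmem o ho1).1, (hEmem o ho1).2.1, x, by simp, ho2⟩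
      · obtain ⟨ho1, ho2⟩ := Finset.mem_filter.1 ho
        exact ⟨(hEmem o ho1).1, (hEmem o ho1).2.1, y, by simp, ho2⟩)
    rw [Finset.card_pair (Ne.symm hyx)] at h1
    have h2 := Finset.card_union_add_card_inter (O x) (O y)
    have h3 : (O x).card = 2 := heq2 x hx
    have h4 : (O y).card = 2 := heq2 y hy
    have h5 : O x ∩ O y = (O x).filter fun e => G.Adj y e := by
      ext e
      simp only [hO, Finset.mem_inter, Finset.mem_filter]
      tauto
    rw [h5] at h2
    omega
  have hdc2 : ∑ y ∈ N, ((O x).filter fun e => G.Adj y e).card =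
      ∑ e ∈ O x, (N.filter fun y => G.Adj y e).card :=
    Finset.sum_card_bipartiteAbove_eq_sum_card_bipartiteBelow (fun x e => G.Adj x e)
  have h5 : 5 ≤ ∑ y ∈ N, ((O x).filter fun e => G.Adj y e).card := by
    rw [← Finset.add_sum_erase _ _ hx]
    have h1 : ((O x).filter fun e => G.Adj x e).card = 2 := by
      rw [← heq2 x hx]
      congr 1
      ext e
      simp only [hO, Finset.mem_filter]
      tauto
    have h2 : (N.erase x).card * 1 ≤ ∑ y ∈ N.erase x, ((O x).filter fun e => G.Adj y e).card := by
      rw [← smul_eq_mul]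
      apply Finset.card_nsmul_le_sum
      intro y hy
      exact hpair y (Finset.mem_of_mem_erase hy) (Finset.ne_of_mem_erase hy)
    rw [Finset.card_erase_of_mem hx, hNcard] at h2
    omega
  have hsplit : ∑ e ∈ E, (N.filter fun y => G.Adj y e).card =
      ∑ e ∈ O x, (N.filter fun y => G.Adj y e).card +
      ∑ e ∈ E \ O x, (N.filter fun y => G.Adj y e).card := by
    rw [add_comm]
    exact (Finset.sum_sdiff (Finset.filter_subset _ _)).symm
  have h6 : (E \ O x).card * 2 ≤ ∑ e ∈ E \ O x, (N.filter fun y => G.Adj y e).card := by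
    rw [← smul_eq_mul]
    apply Finset.card_nsmul_le_sum
    intro e he
    rw [hNe]
    have := (hEmem e (Finset.mem_sdiff.1 he).1).2.2
    omega
  have h7 : (E \ O x).card = E.card - (O x).card :=
    Finset.card_sdiff_of_subset (Finset.filter_subset _ _)
  have h8 : (O x).card = 2 := heq2 x hx
  omega

/-- Choosing a longest path whose rotated ends avoid the exceptional vertex. -/
lemma choose_path (hk : 2 ≤ k) (hf : PF G p f)
    (hmax : ∀ q g, PF G q g → q ≤ p) (hdeg : ∀ v, v ≠ u → k ≤ G.degree v)
    {j : ℕ} (hj : j < p) (hw : ∀ i < p, f i ≠ w) (hwj : G.Adj w (f j))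
    (h0 : f 0 ≠ u) (hl : f (p - 1) ≠ u) :
    ∃ g : ℕ → V, PF G p g ∧ g 0 ≠ u ∧ g (p - 1) ≠ u ∧
      ∀ i, i + 1 < p → G.Adj (g (p - 1)) (g i) → g (i + 1) ≠ u := by
  obtain ⟨hj1, hj2⟩ := attach_mid hf hmax hj hw hwj
  by_cases hE : ∀ i, i + 1 < p → G.Adj (f (p - 1)) (f i) → f (i + 1) ≠ u
  · exact ⟨f, hf, h0, hl, hE⟩
  by_cases hE' : ∀ i, i + 1 < p → G.Adj (f 0) (f (i + 1)) → f i ≠ u
  · refine ⟨fun i => f (p - 1 - i), hf.rev, by simpa using hl, by simpa using h0, ?_⟩
    intro i hi hadj
    simp only [Nat.sub_self] at hadj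
    have := hE' (p - 1 - (i + 1)) (by omega) (by
      rw [show p - 1 - (i + 1) + 1 = p - 1 - i by omega]; exact hadj)
    exact this
  push Not at hE hE'
  obtain ⟨i, hi1, hi2, hiu⟩ := hE
  obtain ⟨l, hl1, hl2, hlu⟩ := hE'
  have hli : l = i + 1 := hf.1 _ (by omega) _ hi1 (hlu.trans hiu.symm)
  subst hli
  -- the cycle through all of the path except `u`
  have hrot := hf.rotR hi1 hi2
  set c : ℕ → V := fun t => if t ≤ i then f t else f (p + i - t) with hc
  have hcPF : PF G (p - 1) c :=
    ⟨fun s hs t ht hst => hrot.1 s (by omega) t (by omega) hst, fun t ht => hrot.2 t (by omega)⟩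
  have hclose : G.Adj (c (p - 1 - 1)) (c 0) := by
    have e1 : ¬ (p - 1 - 1 ≤ i) := by omega
    have e2 : p + i - (p - 1 - 1) = i + 1 + 1 := by omega
    simp only [hc, e1, if_false, e2, Nat.zero_le, if_true]
    exact hl2.symm
  have hwu : w ≠ u := by rintro rfl; exact hw _ hi1 hiu
  have hcu : ∀ t < p - 1, c t ≠ u := by
    intro t ht
    rw [← hiu]
    by_cases a1 : t ≤ i <;> simp only [hc, a1, if_true, if_false]
    · intro h
      have := hf.1 _ (by omega) _ hi1 h
      omega
    · intro h
      have := hf.1 _ (by omega) _ hi1 h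
      omega
  have hcout : ∀ z, (∀ s < p, f s ≠ z) → ∀ t < p - 1, c t ≠ z := by
    intro z hz t ht
    by_cases a1 : t ≤ i <;> simp only [hc, a1, if_true, if_false]
    · exact hz _ (by omega)
    · exact hz _ (by omega)
  -- positions on the cycle
  have hpos : ∀ s < p, f s ≠ u → ∃ t < p - 1, c t = f s := by
    intro s hs hsu
    by_cases a1 : s ≤ i
    · exact ⟨s, by omega, by simp only [hc, a1, if_true]⟩
    · have a3 : s ≠ i + 1 := by rintro rfl; exact hsu hiu
      refine ⟨p + i - s, by omega, ?_⟩
      have a2 : ¬ (p + i - s ≤ i) := by omega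
      simp only [hc, a2, if_false]
      congr 1; omega
  have hmain : ∀ s < p, f s ≠ u → G.Adj w (f s) →
      ∃ g : ℕ → V, PF G p g ∧ g 0 ≠ u ∧ g (p - 1) ≠ u ∧
      ∀ i, i + 1 < p → G.Adj (g (p - 1)) (g i) → g (i + 1) ≠ u := by
    intro s hs hsu hws
    obtain ⟨t, ht, htc⟩ := hpos s hs hsu
    have hg := hcPF.cyc hclose ht (hcout w hw) (by rw [htc]; exact hws)
    rw [show p - 1 + 1 = p by omega] at hg
    have hgu : ∀ r, (if r = 0 then w else c ((t + (r - 1)) % (p - 1))) ≠ u := by
      intro r
      split_ifs with h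
      · exact hwu
      · exact hcu _ (Nat.mod_lt _ (by omega))
    exact ⟨_, hg, hgu 0, hgu _, fun r _ _ => hgu _⟩
  by_cases hju : f j = u
  · -- `w` is adjacent to `u`; take another neighbour of `w`
    have hdw := hdeg w hwu
    have hex : ∃ w', G.Adj w w' ∧ w' ≠ u := by
      by_contra hcon
      push Not at hcon
      have hsub : G.neighborFinset w ⊆ {u} := by
        intro x hx
        rw [SimpleGraph.mem_neighborFinset] at hx
        exact Finset.mem_singleton.2 (hcon x hx)
      have := Finset.card_le_card hsub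
      rw [SimpleGraph.card_neighborFinset_eq_degree, Finset.card_singleton] at this
      omega
    obtain ⟨w', hww', hw'u⟩ := hex
    by_cases hin : ∃ s < p, f s = w'
    · obtain ⟨s, hs, rfl⟩ := hin
      exact hmain s hs hw'u hww'
    · push Not at hin
      exfalso
      -- path `w', w, u, cycle`
      have hci : G.Adj u (c i) := by
        have : c i = f i := by simp [hc]
        rw [this, ← hiu]
        exact (hf.2 i hi1).symm
      have hg1 := hcPF.cyc hclose (j := i) (by omega) (fun t ht => hcu t ht) hci
      have hg2 := hg1.cons (w := w) (by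
        intro r hr
        split_ifs with h
        · exact hwu.symm
        · exact hcout w hw _ (Nat.mod_lt _ (by omega))) (by
        have : G.Adj w u := by rw [← hju]; exact hwj
        simpa using this)
      have hww : w' ≠ w := hww'.ne'
      have hg3 := hg2.cons (w := w') (by
        intro r hr
        split_ifs with h h'
        · exact hww'.ne
        · exact hw'u.symm
        · exact hcout w' hin _ (Nat.mod_lt _ (by omega))) (by simpa using hww'.symm)
      have := hmax _ _ hg3
      omega
  · exact hmain j hj hju hwj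

end big

section final

lemma exists_attach [Fintype V] [DecidableEq V] {G : SimpleGraph V} {p : ℕ} {f : ℕ → V}
    (hG : G.Connected) (hp0 : 0 < p) (hp : p < Fintype.card V) (hf : PF G p f) :
    ∃ w j, j < p ∧ (∀ i < p, f i ≠ w) ∧ G.Adj w (f j) := by
  have : ∃ z, z ∉ (Finset.range p).image f := by
    by_contra hcon
    push Not at hcon
    have h1 : (Finset.univ : Finset V) ⊆ (Finset.range p).image f := fun z _ => hcon z
    have h2 := Finset.card_le_card h1
    have h3 := Finset.card_image_le (s := Finset.range p) (f := f)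
    rw [Finset.card_univ] at h2
    rw [Finset.card_range] at h3
    omega
  obtain ⟨z, hz⟩ := this
  obtain ⟨q⟩ := hG.preconnected (f 0) z
  obtain ⟨d, _, hd1, hd2⟩ := q.exists_boundary_dart (((Finset.range p).image f : Finset V) : Set V)
    (by simpa using ⟨0, hp0, rfl⟩) (by simpa using hz)
  rw [Finset.mem_coe] at hd1 hd2
  obtain ⟨j, hj, hjd⟩ := Finset.mem_image.1 hd1
  refine ⟨d.snd, j, Finset.mem_range.1 hj, fun i hi h => ?_, ?_⟩
  · exact hd2 (Finset.mem_image.2 ⟨i, Finset.mem_range.2 hi, h⟩)
  · rw [hjd]; exact d.adj.symm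

lemma core_contra [Fintype V] [DecidableEq V] {G : SimpleGraph V} [DecidableRel G.Adj]
    {p k : ℕ} {f : ℕ → V} {u : V} (hG : G.Connected) (hk : 1 ≤ k) (hyp : Hyp G k)
    (hp0 : 0 < p) (hp : p < Fintype.card V) (hf : PF G p f)
    (hmax : ∀ q g, PF G q g → q ≤ p) (hdeg : ∀ v, v ≠ u → k ≤ G.degree v)
    (h0 : f 0 ≠ u) (hl : f (p - 1) ≠ u) : False := by
  obtain ⟨w, j, hj, hw, hwj⟩ := exists_attach hG hp0 hp hf
  obtain ⟨hj1, hj2⟩ := attach_mid hf hmax hj hw hwj
  have hk2 : 2 ≤ k := three hyp hf hw hj1 hj2 hwj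
  have hk3 : 3 ≤ k := case_two hyp hf hmax hj hw hwj (hk2.trans (hdeg _ h0))
    (hk2.trans (hdeg _ hl))
  have hk4 : 4 ≤ k := case_three (u := u) hyp hf hmax (fun v hv => hk3.trans (hdeg v hv)) hj hw
    hwj h0 hl
  obtain ⟨g, hg, hg0, hgl, hgE⟩ := choose_path hk2 hf hmax hdeg hj hw hwj h0 hl
  obtain ⟨w', j', hj', hw', hwj'⟩ := exists_attach hG hp0 hp hg
  exact count_core hyp hk4 hg hmax hdeg hj' hw' hwj' hg0 hgl hgE

/-- If the exceptional vertex starts a longest path and has degree at least two, contradiction. -/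
lemma start_contra [Fintype V] [DecidableEq V] {G : SimpleGraph V} [DecidableRel G.Adj]
    {p k : ℕ} {f : ℕ → V} {u : V} (hG : G.Connected) (hk : 1 ≤ k) (hyp : Hyp G k)
    (hp0 : 0 < p) (hp : p < Fintype.card V) (hf : PF G p f)
    (hmax : ∀ q g, PF G q g → q ≤ p) (hdeg : ∀ v, v ≠ u → k ≤ G.degree v)
    (h0 : f 0 = u) (hu : 2 ≤ G.degree u) : False := by
  obtain ⟨w, j, hj, hw, hwj⟩ := exists_attach hG hp0 hp hf
  obtain ⟨hj1, hj2⟩ := attach_mid hf hmax hj hw hwj
  have hne := not_adj_ends hf hmax hj hw hwj
  obtain ⟨a, hap, haX, hadj⟩ := exists_idx hf hmax {1} (by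
    rw [Finset.card_singleton, h0]; omega)
  have ha0 : a ≠ 0 := by rintro rfl; exact hadj.ne rfl
  have hap' : a ≠ p - 1 := by rintro rfl; exact hne hadj
  have ha1 : a ≠ 1 := by simpa using haX
  have hg := hf.rot (by omega) hap hadj
  refine core_contra (u := u) hG hk hyp hp0 hp hg hmax hdeg ?_ ?_
  · have e1 : 0 < a := by omega
    rw [if_pos e1, ← h0]
    intro h
    have := hf.1 _ (by omega) _ (by omega) h
    omega
  · have e1 : ¬ (p - 1 < a) := by omega
    rw [if_neg e1, ← h0]
    intro h
    have := hf.1 _ (by omega) _ (by omega) h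
    omega

lemma CS.map_val [DecidableEq V] {G : SimpleGraph V} {s : Set V} {S : Finset s}
    (h : CS (G.induce s) S) : CS G (S.map (Function.Embedding.subtype _)) := by
  induction h with
  | single v => simpa using CS.single (G := G) (v : V)
  | @add S x y hS hx hxy ih =>
    rw [Finset.map_insert]
    exact CS.add ih (Finset.mem_map_of_mem _ hx) (by simpa using hxy)

lemma Hyp.induce [DecidableEq V] {G : SimpleGraph V} {s : Set V} {k : ℕ} (h : Hyp G k) :
    Hyp (G.induce s) k := by
  intro S F hS hSF hF
  have := h (S.map (Function.Embedding.subtype _)) (F.map (Function.Embedding.subtype _))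
    hS.map_val ?_ ?_
  · simpa using this
  · exact (Finset.disjoint_map _).2 hSF
  · intro f hf
    obtain ⟨x, hx, rfl⟩ := Finset.mem_map.1 hf
    obtain ⟨y, hy, hyx⟩ := hF x hx
    exact ⟨_, Finset.mem_map_of_mem _ hy, by simpa using hyx⟩

theorem main_ind (n : ℕ) : ∀ (V : Type*) [Fintype V] [DecidableEq V] (G : SimpleGraph V)
    [DecidableRel G.Adj], Fintype.card V = n → G.Connected → ∀ k, 1 ≤ k → ∀ u : V,
    (∀ v, v ≠ u → k ≤ G.degree v) → Hyp G k → ∃ f : ℕ → V, PF G (Fintype.card V) f := by
  induction n with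
  | zero =>
    intro V _ _ G _ hV hG k hk u hdeg hyp
    have : 0 < Fintype.card V := Fintype.card_pos_iff.2 ⟨u⟩
    omega
  | succ n ih =>
    intro V _ _ G _ hV hG k hk u hdeg hyp
    by_contra hcon
    push Not at hcon
    -- a longest path
    have hbound : ∀ q g, PF G q g → q ≤ Fintype.card V := by
      intro q g hg
      have h1 : ((Finset.range q).image g).card = q := by
        rw [Finset.card_image_of_injOn, Finset.card_range]
        intro s hs t ht hst
        exact hg.1 s (by simpa using hs) t (by simpa using ht) hst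
      rw [← h1]; exact Finset.card_le_univ _
    have h1 : ∃ f, PF G 1 f := ⟨fun _ => u, fun i hi j hj _ => by omega, fun i hi => by omega⟩
    classical
    set P := fun q => ∃ g, PF G q g with hP
    obtain ⟨p, hpp, hmaxp⟩ : ∃ p, P p ∧ ∀ q, P q → q ≤ p := by
      have hP1 : P 1 := h1
      refine ⟨Nat.findGreatest P (Fintype.card V), ?_, ?_⟩
      · exact Nat.findGreatest_spec (P := P) (hbound 1 _ h1.choose_spec) hP1
      · intro q hq
        exact Nat.le_findGreatest (hbound q _ hq.choose_spec) hq
    obtain ⟨f, hf⟩ := hpp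
    have hmax : ∀ q g, PF G q g → q ≤ p := fun q g hg => hmaxp q ⟨g, hg⟩
    have hp0 : 0 < p := hmax 1 _ h1.choose_spec
    have hp : p < Fintype.card V := by
      rcases lt_or_eq_of_le (hbound p f hf) with h | h
      · exact h
      · exact absurd (h ▸ hf) (hcon f)
    by_cases hends : f 0 ≠ u ∧ f (p - 1) ≠ u
    · exact core_contra hG hk hyp hp0 hp hf hmax hdeg hends.1 hends.2
    by_cases hu2 : 2 ≤ G.degree u
    · by_cases h0 : f 0 = u
      · exact start_contra hG hk hyp hp0 hp hf hmax hdeg h0 hu2
      · have hl : f (p - 1) = u := by tauto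
        exact start_contra hG hk hyp hp0 hp hf.rev hmax hdeg (by simpa using hl) hu2
    -- the exceptional vertex is a leaf: remove it
    have : Nontrivial V := Fintype.one_lt_card_iff_nontrivial.1 (by omega)
    have hu1 : G.degree u = 1 := by
      have := hG.preconnected.degree_pos_of_nontrivial u
      omega
    have hG' := hG.induce_compl_singleton_of_degree_eq_one hu1
    obtain ⟨x, hx, hxu⟩ := SimpleGraph.degree_eq_one_iff_existsUnique_adj.1 hu1
    have hcard : Fintype.card ({u}ᶜ : Set V) = n := by
      rw [Fintype.card_compl_set, hV]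
      simp
    obtain ⟨g, hg⟩ := ih ({u}ᶜ : Set V) (G.induce ({u}ᶜ : Set V)) hcard hG' k hk
      ⟨x, by simpa using hx.ne'⟩ (by
        intro v hv
        rw [SimpleGraph.degree_induce_of_neighborSet_subset]
        · exact hdeg _ (Set.mem_compl_singleton_iff.1 v.2)
        · intro y hy
          rw [Set.mem_compl_iff, Set.mem_singleton_iff]
          rintro rfl
          rw [SimpleGraph.mem_neighborSet] at hy
          exact hv (Subtype.ext (hxu _ hy.symm))) hyp.induce
    have hg' : PF G n (fun i => (g i : V)) := by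
      rw [hcard] at hg
      exact ⟨fun i hi j hj hij => hg.1 i hi j hj (Subtype.ext hij), fun i hi => hg.2 i hi⟩
    have hn : n ≤ p := hmax _ _ hg'
    have hpn : p = n := by omega
    subst hpn
    have hgu : ∀ i, (g i : V) ≠ u := fun i => Set.mem_compl_singleton_iff.1 (g i).2
    exact core_contra hG hk hyp hp0 hp hg' hmax hdeg (hgu _) (hgu _)

/-- From a path function covering all vertices to a Hamiltonian walk. -/
lemma to_walk {G : SimpleGraph V} {p : ℕ} {f : ℕ → V} (hf : PF G p f) :
    ∀ m, m < p → ∃ q : G.Walk (f 0) (f m), q.support = (List.range (m + 1)).map f := by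
  intro m
  induction m with
  | zero => intro _; exact ⟨SimpleGraph.Walk.nil, by simp⟩
  | succ m ih =>
    intro hm
    obtain ⟨q, hq⟩ := ih (by omega)
    refine ⟨q.concat (hf.2 m hm), ?_⟩
    rw [SimpleGraph.Walk.support_concat, hq, List.range_succ (n := m + 1), List.map_append]
    simp

lemma hamiltonian_of_PF [Fintype V] [DecidableEq V] {G : SimpleGraph V} {f : ℕ → V}
    (hpos : 0 < Fintype.card V) (hf : PF G (Fintype.card V) f) :
    ∃ (a b : V) (q : G.Walk a b), q.IsHamiltonian := by
  obtain ⟨q, hq⟩ := to_walk hf (Fintype.card V - 1) (by omega)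
  refine ⟨_, _, q, ?_⟩
  have hnd : q.support.Nodup := by
    rw [hq, List.nodup_map_iff_inj_on List.nodup_range]
    intro i hi j hj hij
    rw [List.mem_range] at hi hj
    exact hf.1 i (by omega) j (by omega) hij
  have hpath : q.IsPath := SimpleGraph.Walk.IsPath.mk' hnd
  apply hpath.isHamiltonian_of_mem
  intro v
  have h1 : q.support.toFinset = Finset.univ := by
    apply Finset.eq_univ_of_card
    rw [List.toFinset_card_of_nodup hnd, hq]
    simp
    omega
  have := Finset.mem_univ v
  rw [← h1] at this
  simpa using this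

/-- All vertices but at most one have degree at least the second smallest degree. -/
lemma exists_exceptional [Fintype V] (G : SimpleGraph V) (hcard : 2 ≤ Fintype.card V) :
    ∃ u : V, ∀ v, v ≠ u → secondSmallestDegree G ≤ (by classical exact G.degree v) := by
  classical
  set k := secondSmallestDegree G with hk
  set l := (Finset.univ.val.map fun v : V => G.degree v).sort (· ≤ ·) with hl
  have hlen : l.length = Fintype.card V := by
    rw [hl, Multiset.length_sort, Multiset.card_map]; rfl
  have hkl : k = l.getD 1 0 := by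
    rw [hk, hl]; unfold secondSmallestDegree; congr!
  by_contra hcon
  push Not at hcon
  have hne : Nonempty V := Fintype.card_pos_iff.1 (by omega)
  obtain ⟨v0⟩ := hne
  obtain ⟨v1, _, hv1⟩ := hcon v0
  obtain ⟨v2, hv21, hv2⟩ := hcon v1
  -- at least two entries below `k`
  have hcount : 2 ≤ (l.filter (· < k)).length := by
    have h1 : ((l.filter (· < k) : List ℕ) : Multiset ℕ) =
        ((Finset.univ.filter fun v : V => G.degree v < k).val.map fun v => G.degree v) := by
      rw [← Multiset.filter_coe, hl, Multiset.sort_eq, Multiset.filter_map]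
      rfl
    have h2 : (l.filter (· < k)).length = (Finset.univ.filter fun v : V => G.degree v < k).card := by
      rw [← Multiset.coe_card, h1, Multiset.card_map]; rfl
    rw [h2]
    have h3 : ({v1, v2} : Finset V) ⊆ Finset.univ.filter fun v : V => G.degree v < k := by
      intro x hx
      rw [Finset.mem_filter]
      refine ⟨Finset.mem_univ _, ?_⟩
      rcases Finset.mem_insert.1 hx with rfl | hx
      · exact hv1
      · rw [Finset.mem_singleton] at hx; rw [hx]; exact hv2
    have h4 := Finset.card_le_card h3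
    rwa [Finset.card_pair (Ne.symm hv21)] at h4
  have hsorted : l.Pairwise (· ≤ ·) := Multiset.pairwise_sort _ _
  clear_value l
  match l, hlen, hkl, hcount, hsorted with
  | [], hlen, _, _, _ => simp at hlen; omega
  | [a], hlen, _, _, _ => simp at hlen; omega
  | a :: b :: t, _, hkl, hcount, hsorted =>
    have hb : k = b := by simpa using hkl
    rw [hb] at hcount
    have ht : t.filter (· < b) = [] := by
      rw [List.filter_eq_nil_iff]
      intro x hx
      have := (List.pairwise_cons.1 (List.pairwise_cons.1 hsorted).2).1 x hx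
      simpa using this
    have h1 : ((a :: b :: t).filter (· < b)).length ≤ 1 := by
      rw [List.filter_cons, List.filter_cons, ht]
      simp
      split_ifs <;> simp
    omega

lemma secondSmallest_pos [Fintype V] {G : SimpleGraph V} (hG : G.Connected)
    (hcard : 2 ≤ Fintype.card V) : 1 ≤ secondSmallestDegree G := by
  classical
  have : Nontrivial V := Fintype.one_lt_card_iff_nontrivial.1 (by omega)
  set l := (Finset.univ.val.map fun v : V => G.degree v).sort (· ≤ ·) with hl
  have hlen : l.length = Fintype.card V := by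
    rw [hl, Multiset.length_sort, Multiset.card_map]; rfl
  have hkl : secondSmallestDegree G = l.getD 1 0 := by
    rw [hl]; unfold secondSmallestDegree; congr!
  have hmem : l.getD 1 0 ∈ l := by
    rw [List.getD_eq_getElem _ _ (by omega)]
    exact List.getElem_mem _
  rw [hkl]
  rw [hl, Multiset.mem_sort, Multiset.mem_map] at hmem
  obtain ⟨v, _, hv⟩ := hmem
  rw [← hl] at hv
  rw [← hv]
  exact hG.preconnected.degree_pos_of_nontrivial v

end final

end Pool.Agent.H22.Leaf
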