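import Mathlib

/-! Definitions for the m-eternal domination game on a graph. A configuration is the finite set of
vertices occupied by guards. -/

namespace Pool.Agent.H22.MEternal

variable {V : Type*}

/-- One response of the defender: the guards on `C` move bijectively onto `D`, and every guard
stays where it is or crosses one edge. -/
def Move (G : SimpleGraph V) (C D : Finset V) : Prop :=
  ∃ f : V → V, Set.BijOn f (C : Set V) (D : Set V) ∧ ∀ v ∈ C, f v = v ∨ G.Adj v (f v)

/-- From the configuration `C` the attacker has a strategy that wins within at most `k` attacks:
he attacks some vertex `a` such that every response occupying `a` leads to a configuration from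
which he wins within at most `k - 1` attacks (a defender who does not occupy `a` has lost). -/
def AttackerWinsIn (G : SimpleGraph V) : ℕ → Finset V → Prop
  | 0, _ => False
  | k + 1, C => ∃ a : V, ∀ D : Finset V, Move G C D → a ∈ D → AttackerWinsIn G k D

/-- `C` is an m-eternal dominating set: the defender can answer every attack forever, staying
inside a family of configurations. -/
def EternallyDominates (G : SimpleGraph V) (C : Finset V) : Prop :=
  ∃ F : Set (Finset V), C ∈ F ∧ ∀ D ∈ F, ∀ a : V, ∃ E ∈ F, Move G D E ∧ a ∈ E

/-- The least size of an m-eternal dominating set. -/
noncomputable def mEternalNumber (G : SimpleGraph V) : ℕ :=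
  sInf {m : ℕ | ∃ C : Finset V, C.card = m ∧ EternallyDominates G C}

/-- `G` is defeated in `k` attacks: from every configuration with fewer guards than the m-eternal
domination number the attacker wins within at most `k` attacks. -/
def DefeatedIn (G : SimpleGraph V) (k : ℕ) : Prop :=
  ∀ C : Finset V, C.card < mEternalNumber G → AttackerWinsIn G k C

end Pool.Agent.H22.MEternal
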