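import Pool.Agent.H22.MEternalDefs

/-! A graph on 14 vertices that is not defeated in 14 attacks: certificate and its verification. -/

namespace Pool.Agent.H22.MEternal

/-- Closed neighbourhoods as bit masks. -/
def nb : List ℕ := [2265, 1254, 12038, 8921, 14713, 370, 12539, 14027, 9524, 652, 5510, 14357,
  15568, 14812]

/-- Membership in the closed neighbourhood. -/
def cl (i j : Fin 14) : Bool := (nb.getD i.val 0).testBit j.val

/-- The graph. -/
def G14 : SimpleGraph (Fin 14) where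
  Adj i j := i ≠ j ∧ cl i j = true
  symm := ⟨by
    have h : ∀ i j : Fin 14, cl i j = true → cl j i = true := by decide +kernel
    exact fun i j hij => ⟨hij.1.symm, h i j hij.2⟩⟩
  loopless := ⟨fun i h => h.1 rfl⟩

/-- Certificate entries: three occupied vertices, the number of attacks survived, and a good
attack. -/
structure Entry where
  i : Fin 14
  j : Fin 14
  k : Fin 14
  r : ℕ
  a : Fin 14

/-- The certificate. -/
def T : List Entry := [⟨0, 2, 4, 3, 9⟩, ⟨0, 2, 6, 6, 9⟩, ⟨0, 7, 8, 16, 11⟩, ⟨1, 2, 4, 16, 11⟩,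
  ⟨1, 2, 6, 16, 11⟩, ⟨1, 3, 4, 10, 12⟩, ⟨1, 3, 13, 10, 12⟩, ⟨1, 4, 7, 13, 11⟩, ⟨1, 4, 9, 5, 8⟩,
  ⟨1, 7, 13, 13, 11⟩, ⟨2, 3, 4, 14, 1⟩, ⟨2, 3, 6, 16, 11⟩, ⟨2, 4, 6, 6, 9⟩, ⟨2, 4, 7, 16, 11⟩,
  ⟨2, 4, 9, 16, 11⟩, ⟨2, 4, 10, 11, 3⟩, ⟨2, 4, 12, 9, 9⟩, ⟨2, 4, 13, 16, 11⟩, ⟨2, 5, 6, 6, 9⟩,
  ⟨2, 5, 7, 7, 0⟩, ⟨2, 6, 7, 16, 11⟩, ⟨2, 6, 8, 4, 0⟩, ⟨2, 6, 9, 16, 11⟩, ⟨2, 6, 10, 11, 3⟩,
  ⟨2, 6, 11, 1, 5⟩, ⟨2, 6, 12, 9, 9⟩, ⟨2, 6, 13, 16, 11⟩, ⟨2, 7, 8, 4, 0⟩, ⟨3, 4, 10, 14, 1⟩,
  ⟨4, 7, 8, 16, 11⟩, ⟨4, 7, 9, 2, 11⟩, ⟨4, 7, 10, 16, 11⟩, ⟨4, 7, 11, 15, 10⟩,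
  ⟨4, 7, 13, 16, 11⟩, ⟨4, 9, 10, 8, 5⟩, ⟨5, 7, 11, 12, 10⟩, ⟨5, 7, 13, 16, 11⟩,
  ⟨5, 8, 12, 0, 0⟩, ⟨6, 7, 13, 16, 11⟩, ⟨7, 8, 11, 15, 3⟩, ⟨7, 8, 12, 16, 11⟩,
  ⟨7, 8, 13, 16, 11⟩]

/-- The configuration of an entry. -/
def Entry.cfg (e : Entry) : Finset (Fin 14) := {e.i, e.j, e.k}

/-- Membership in the configuration. -/
def Entry.has (e : Entry) (a : Fin 14) : Bool := a == e.i || a == e.j || a == e.k

/-- Some bijection along closed neighbourhoods. -/
def Entry.mt (e g : Entry) : Bool :=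
  (cl e.i g.i && cl e.j g.j && cl e.k g.k) || (cl e.i g.i && cl e.j g.k && cl e.k g.j) ||
  (cl e.i g.j && cl e.j g.i && cl e.k g.k) || (cl e.i g.j && cl e.j g.k && cl e.k g.i) ||
  (cl e.i g.k && cl e.j g.i && cl e.k g.j) || (cl e.i g.k && cl e.j g.j && cl e.k g.i)

/-- Entries have three distinct vertices. -/
def Entry.ok (e : Entry) : Bool := e.i != e.j && e.i != e.k && e.j != e.k

lemma T_ok : T.all Entry.ok = true := by decide +kernel

lemma T_survive : (T.all fun e => e.r == 0 || (List.finRange 14).all fun a =>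
    T.any fun g => g.has a && Nat.ble e.r (g.r + 1) && e.mt g) = true := by decide +kernel

lemma T_attack : (T.all fun e => T.all fun g =>
    !(g.has e.a && Nat.ble e.r g.r) || !(e.mt g)) = true := by decide +kernel

/-- Domination of all vertices by three closed neighbourhoods. -/
def dom3 (i j k : Fin 14) : Bool :=
  ((nb.getD i.val 0) ||| (nb.getD j.val 0) ||| (nb.getD k.val 0)) == 16383

lemma T_dom : ((List.finRange 14).all fun i => (List.finRange 14).all fun j =>
    (List.finRange 14).all fun k => i == j || i == k || j == k || !(dom3 i j k) ||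
    T.any fun e => e.has i && e.has j && e.has k) = true := by decide +kernel

lemma dom2 : ((List.finRange 14).all fun i => (List.finRange 14).all fun j =>
    !(dom3 i j j) || (i == 2 && j == 6) || (i == 6 && j == 2)) = true := by decide +kernel

lemma cl_self : ∀ i : Fin 14, cl i i = true := by decide +kernel

lemma cl_of {v w : Fin 14} (h : w = v ∨ G14.Adj v w) : cl v w = true := by
  rcases h with rfl | h
  · exact cl_self _
  · exact h.2

lemma of_cl {v w : Fin 14} (h : cl v w = true) : w = v ∨ G14.Adj v w := by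
  by_cases hvw : w = v
  · exact Or.inl hvw
  · exact Or.inr ⟨fun h' => hvw h'.symm, h⟩

lemma move_of {i j k x y z : Fin 14} (hij : i ≠ j) (hik : i ≠ k) (hjk : j ≠ k) (hxy : x ≠ y)
    (hxz : x ≠ z) (hyz : y ≠ z) (h1 : cl i x = true) (h2 : cl j y = true) (h3 : cl k z = true) :
    Move G14 {i, j, k} {x, y, z} := by
  set f : Fin 14 → Fin 14 := fun v => if v = i then x else if v = j then y else z with hf
  have fi : f i = x := by simp [hf]
  have fj : f j = y := by simp [hf, hij.symm]
  have fk : f k = z := by simp [hf, hik.symm, hjk.symm]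
  refine ⟨f, ⟨?_, ?_, ?_⟩, ?_⟩
  · intro v hv
    simp only [Finset.coe_insert, Finset.coe_singleton, Set.mem_insert_iff,
      Set.mem_singleton_iff] at hv ⊢
    rcases hv with rfl | rfl | rfl
    · left; exact fi
    · right; left; exact fj
    · right; right; exact fk
  · intro v hv w hw hvw
    simp only [Finset.coe_insert, Finset.coe_singleton, Set.mem_insert_iff,
      Set.mem_singleton_iff] at hv hw
    rcases hv with rfl | rfl | rfl <;> rcases hw with rfl | rfl | rfl
    · rfl
    · rw [fi, fj] at hvw; exact absurd hvw hxy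
    · rw [fi, fk] at hvw; exact absurd hvw hxz
    · rw [fj, fi] at hvw; exact absurd hvw.symm hxy
    · rfl
    · rw [fj, fk] at hvw; exact absurd hvw hyz
    · rw [fk, fi] at hvw; exact absurd hvw.symm hxz
    · rw [fk, fj] at hvw; exact absurd hvw.symm hyz
    · rfl
  · intro v hv
    simp only [Finset.coe_insert, Finset.coe_singleton, Set.mem_insert_iff,
      Set.mem_singleton_iff] at hv
    rcases hv with rfl | rfl | rfl
    · exact ⟨i, by simp, fi⟩
    · exact ⟨j, by simp, fj⟩
    · exact ⟨k, by simp, fk⟩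
  · intro v hv
    simp only [Finset.mem_insert, Finset.mem_singleton] at hv
    rcases hv with rfl | rfl | rfl
    · rw [fi]; exact of_cl h1
    · rw [fj]; exact of_cl h2
    · rw [fk]; exact of_cl h3

lemma ok_ne {e : Entry} (h : e.ok = true) : e.i ≠ e.j ∧ e.i ≠ e.k ∧ e.j ≠ e.k := by
  unfold Entry.ok at h
  simpa [and_assoc] using h

lemma mt_move {e g : Entry} (he : e.ok = true) (hg : g.ok = true) (h : e.mt g = true) :
    Move G14 e.cfg g.cfg := by
  obtain ⟨a1, a2, a3⟩ := ok_ne he
  obtain ⟨b1, b2, b3⟩ := ok_ne hg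
  unfold Entry.mt at h
  simp only [Bool.or_eq_true, Bool.and_eq_true] at h
  unfold Entry.cfg
  rcases h with ((((h | h) | h) | h) | h) | h
  · exact move_of a1 a2 a3 b1 b2 b3 h.1.1 h.1.2 h.2
  · have := move_of a1 a2 a3 b2 b1 b3.symm h.1.1 h.1.2 h.2
    convert this using 1
    ext x; simp; tauto
  · have := move_of a1 a2 a3 b1.symm b3 b2 h.1.1 h.1.2 h.2
    convert this using 1
    ext x; simp; tauto
  · have := move_of a1 a2 a3 b3 b1.symm b2.symm h.1.1 h.1.2 h.2
    convert this using 1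
    ext x; simp; tauto
  · have := move_of a1 a2 a3 b2.symm b3.symm b1 h.1.1 h.1.2 h.2
    convert this using 1
    ext x; simp; tauto
  · have := move_of a1 a2 a3 b3.symm b2.symm b1.symm h.1.1 h.1.2 h.2
    convert this using 1
    ext x; simp; tauto

lemma has_iff {e : Entry} {a : Fin 14} : e.has a = true ↔ a ∈ e.cfg := by
  unfold Entry.has Entry.cfg
  simp [or_assoc]

lemma survive : ∀ k : ℕ, ∀ e ∈ T, k ≤ e.r → ¬ AttackerWinsIn G14 k e.cfg := by
  intro k
  induction k with
  | zero => intro e _ _ h; exact h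
  | succ k ih =>
    intro e he hk h
    obtain ⟨a, ha⟩ := h
    have h1 := List.all_eq_true.1 T_survive e he
    simp only [Bool.or_eq_true, beq_iff_eq] at h1
    rcases h1 with h1 | h1
    · omega
    · have h2 := List.all_eq_true.1 h1 a (List.mem_finRange a)
      obtain ⟨g, hg, hgm⟩ := List.any_eq_true.1 h2
      simp only [Bool.and_eq_true, Nat.ble_eq] at hgm
      have heo := List.all_eq_true.1 T_ok e he
      have hgo := List.all_eq_true.1 T_ok g hg
      exact ih g hg (by omega) (ha _ (mt_move heo hgo hgm.2) (has_iff.1 hgm.1.1))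

lemma Move.card {V : Type*} {G : SimpleGraph V} {C D : Finset V} (h : Move G C D) :
    D.card = C.card := by
  classical
  obtain ⟨f, hf, _⟩ := h
  have : D = C.image f := by
    ext x
    constructor
    · intro hx
      obtain ⟨y, hy, hyx⟩ := hf.surjOn (Finset.mem_coe.2 hx)
      exact Finset.mem_image.2 ⟨y, Finset.mem_coe.1 hy, hyx⟩
    · intro hx
      obtain ⟨y, hy, rfl⟩ := Finset.mem_image.1 hx
      exact Finset.mem_coe.1 (hf.mapsTo (Finset.mem_coe.2 hy))
  rw [this, Finset.card_image_of_injOn hf.injOn]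

/-- A reachable configuration is found by the matching test. -/
lemma move_mt {e g : Entry} (hg : g.ok = true) (h : Move G14 e.cfg g.cfg) (he : e.ok = true) :
    e.mt g = true := by
  obtain ⟨a1, a2, a3⟩ := ok_ne he
  obtain ⟨b1, b2, b3⟩ := ok_ne hg
  obtain ⟨f, hf, hadj⟩ := h
  have mi : e.i ∈ e.cfg := by simp [Entry.cfg]
  have mj : e.j ∈ e.cfg := by simp [Entry.cfg]
  have mk : e.k ∈ e.cfg := by simp [Entry.cfg]
  have hi := cl_of (hadj e.i mi)
  have hj := cl_of (hadj e.j mj)
  have hk := cl_of (hadj e.k mk)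
  have ti := hf.mapsTo (Finset.mem_coe.2 mi)
  have tj := hf.mapsTo (Finset.mem_coe.2 mj)
  have tk := hf.mapsTo (Finset.mem_coe.2 mk)
  have nij : f e.i ≠ f e.j := fun h => a1 (hf.injOn (Finset.mem_coe.2 mi) (Finset.mem_coe.2 mj) h)
  have nik : f e.i ≠ f e.k := fun h => a2 (hf.injOn (Finset.mem_coe.2 mi) (Finset.mem_coe.2 mk) h)
  have njk : f e.j ≠ f e.k := fun h => a3 (hf.injOn (Finset.mem_coe.2 mj) (Finset.mem_coe.2 mk) h)
  rw [Finset.mem_coe] at ti tj tk
  unfold Entry.cfg at ti tj tk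
  simp only [Finset.mem_insert, Finset.mem_singleton] at ti tj tk
  unfold Entry.mt
  simp only [Bool.or_eq_true, Bool.and_eq_true]
  rcases ti with ti | ti | ti <;> rcases tj with tj | tj | tj <;> rcases tk with tk | tk | tk <;>
    rw [ti] at hi nij nik <;> rw [tj] at hj nij njk <;> rw [tk] at hk nik njk <;>
    first
    | exact absurd rfl nij
    | exact absurd rfl nik
    | exact absurd rfl njk
    | simp only [hi, hj, hk, and_self, true_or, or_true]

lemma mem_dom {F : Set (Finset (Fin 14))}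
    (hF : ∀ D ∈ F, ∀ a : Fin 14, ∃ E ∈ F, Move G14 D E ∧ a ∈ E) {C : Finset (Fin 14)}
    (hC : C ∈ F) (a : Fin 14) : ∃ v ∈ C, cl v a = true := by
  obtain ⟨E, _, ⟨f, hf, hadj⟩, haE⟩ := hF C hC a
  obtain ⟨v, hv, hva⟩ := hf.surjOn (Finset.mem_coe.2 haE)
  have hv' := Finset.mem_coe.1 hv
  refine ⟨v, hv', ?_⟩
  have := cl_of (hadj v hv')
  rwa [hva] at this

lemma testBit_dom {i j k : Fin 14} (h : ∀ a : Fin 14, cl i a = true ∨ cl j a = true ∨
    cl k a = true) : dom3 i j k = true := by
  have hlt : ∀ i : Fin 14, nb.getD i.val 0 < 2 ^ 14 := by decide +kernel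
  unfold dom3
  rw [beq_iff_eq]
  have h16 : (16383 : ℕ) = 2 ^ 14 - 1 := by norm_num
  rw [h16]
  apply Nat.eq_of_testBit_eq
  intro b
  rw [Nat.testBit_two_pow_sub_one]
  by_cases hb : b < 14
  · have := h ⟨b, hb⟩
    unfold cl at this
    simp only [Nat.testBit_or, hb, decide_true]
    rcases this with h | h | h <;> simp only [h, Bool.or_true, Bool.true_or]
  · simp only [Nat.testBit_or, hb, decide_false, Bool.or_eq_false_iff]
    have hp : 2 ^ 14 ≤ 2 ^ b := Nat.pow_le_pow_right (by norm_num) (by omega)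
    refine ⟨⟨?_, ?_⟩, ?_⟩ <;>
      exact Nat.testBit_lt_two_pow (lt_of_lt_of_le (hlt _) hp)

/-- No configuration with at most three guards is m-eternal. -/
lemma four_le {C : Finset (Fin 14)} (hC : EternallyDominates G14 C) : 4 ≤ C.card := by
  obtain ⟨F, hCF, hF⟩ := hC
  by_contra hlt
  have hle : C.card ≤ 3 := by omega
  -- at most two guards are impossible
  have hsmall : ∀ D ∈ F, D.card ≤ 2 → D = {2, 6} := by
    intro D hD hcard
    obtain ⟨v, hv, _⟩ := mem_dom hF hD 0
    have hD2 : ∃ i j, D = {i, j} := by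
      have h1 : 1 ≤ D.card := Finset.card_pos.2 ⟨v, hv⟩
      rcases (by omega : D.card = 1 ∨ D.card = 2) with h | h
      · obtain ⟨i, rfl⟩ := Finset.card_eq_one.1 h
        exact ⟨i, i, by simp⟩
      · obtain ⟨i, j, _, rfl⟩ := Finset.card_eq_two.1 h
        exact ⟨i, j, rfl⟩
    obtain ⟨i, j, rfl⟩ := hD2
    have hd : dom3 i j j = true := by
      apply testBit_dom
      intro a
      obtain ⟨v, hv, hva⟩ := mem_dom hF hD a
      rcases Finset.mem_insert.1 hv with rfl | hv
      · exact Or.inl hva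
      · rw [Finset.mem_singleton] at hv; subst hv; exact Or.inr (Or.inl hva)
    have h1 := List.all_eq_true.1 (List.all_eq_true.1 dom2 i (List.mem_finRange i)) j
      (List.mem_finRange j)
    simp only [hd, Bool.not_true, Bool.false_or, Bool.or_eq_true, Bool.and_eq_true,
      beq_iff_eq] at h1
    rcases h1 with ⟨rfl, rfl⟩ | ⟨rfl, rfl⟩
    · rfl
    · exact Finset.pair_comm _ _
  have hcard3 : C.card = 3 := by
    by_contra h3
    have h2 := hsmall C hCF (by omega)
    obtain ⟨E, hE, hmE, h0⟩ := hF C hCF 0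
    have hEc : E.card ≤ 2 := by rw [hmE.card]; omega
    have h4 := hsmall E hE hEc
    rw [h4] at h0
    revert h0
    decide
  -- every member of `F` with three guards is in the certificate
  have hmemT : ∀ D ∈ F, D.card = 3 → ∃ e ∈ T, D = e.cfg := by
    intro D hD hcard
    obtain ⟨i, j, k, hij, hik, hjk, rfl⟩ := Finset.card_eq_three.1 hcard
    have hd : dom3 i j k = true := by
      apply testBit_dom
      intro a
      obtain ⟨v, hv, hva⟩ := mem_dom hF hD a
      simp only [Finset.mem_insert, Finset.mem_singleton] at hv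
      rcases hv with rfl | rfl | rfl
      · exact Or.inl hva
      · exact Or.inr (Or.inl hva)
      · exact Or.inr (Or.inr hva)
    have h1 := List.all_eq_true.1 (List.all_eq_true.1 (List.all_eq_true.1 T_dom i
      (List.mem_finRange i)) j (List.mem_finRange j)) k (List.mem_finRange k)
    simp only [hd, Bool.not_true, Bool.or_false, Bool.or_eq_true, beq_iff_eq, hij, hik, hjk,
      false_or] at h1
    obtain ⟨e, he, hem⟩ := List.any_eq_true.1 h1
    simp only [Bool.and_eq_true, has_iff] at hem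
    refine ⟨e, he, ?_⟩
    apply Finset.eq_of_subset_of_card_le
    · intro x hx
      simp only [Finset.mem_insert, Finset.mem_singleton] at hx
      rcases hx with rfl | rfl | rfl
      · exact hem.1.1
      · exact hem.1.2
      · exact hem.2
    · rw [hcard]
      exact Finset.card_le_three
  -- descend in rank
  have hdesc : ∀ r : ℕ, ∀ e ∈ T, e.cfg ∈ F → e.cfg.card = 3 → r ≤ e.r := by
    intro r
    induction r with
    | zero => intro e _ _ _; exact Nat.zero_le _
    | succ r ih =>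
      intro e he heF hec
      have h1 := ih e he heF hec
      by_contra hcon
      have her : e.r = r := by omega
      obtain ⟨E, hE, hmE, haE⟩ := hF e.cfg heF e.a
      obtain ⟨g, hg, rfl⟩ := hmemT E hE (by rw [hmE.card, hec])
      have h2 := ih g hg hE (by rw [hmE.card, hec])
      have h3 := List.all_eq_true.1 (List.all_eq_true.1 T_attack e he) g hg
      have heo := List.all_eq_true.1 T_ok e he
      have hgo := List.all_eq_true.1 T_ok g hg
      have h4 := move_mt hgo hmE heo
      have h5 : g.has e.a = true := has_iff.2 haE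
      have h6 : Nat.ble e.r g.r = true := by rw [Nat.ble_eq, her]; exact h2
      simp [h4, h5, h6] at h3
  obtain ⟨e, he, rfl⟩ := hmemT C hCF hcard3
  have h1 := hdesc 17 e he hCF hcard3
  have h2 : (T.all fun e => Nat.ble e.r 16) = true := by decide +kernel
  have h3 := List.all_eq_true.1 h2 e he
  rw [Nat.ble_eq] at h3
  omega

lemma number_ge : 4 ≤ mEternalNumber G14 := by
  unfold mEternalNumber
  apply le_csInf
  · refine ⟨_, Finset.univ, rfl, {Finset.univ}, rfl, ?_⟩
    intro D hD a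
    rw [Set.mem_singleton_iff] at hD
    subst hD
    exact ⟨Finset.univ, rfl, ⟨id, Set.bijOn_id _, fun v _ => Or.inl rfl⟩, Finset.mem_univ a⟩
  · rintro m ⟨C, rfl, hC⟩
    exact four_le hC

lemma connected : G14.Connected := by
  rw [SimpleGraph.connected_iff_exists_forall_reachable]
  refine ⟨0, ?_⟩
  have h : ∀ v : Fin 14, ∃ w : Fin 14, cl 0 w = true ∧ cl w v = true := by decide +kernel
  intro v
  obtain ⟨w, h1, h2⟩ := h v
  have h3 : G14.Reachable 0 w := by
    rcases of_cl h1 with rfl | h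
    · exact SimpleGraph.Reachable.refl _
    · exact h.reachable
  have h4 : G14.Reachable w v := by
    rcases of_cl h2 with rfl | h
    · exact SimpleGraph.Reachable.refl _
    · exact h.reachable
  exact h3.trans h4

theorem main : ∀ k ≤ 16, ¬ DefeatedIn G14 k := by
  intro k hk h
  have he : (⟨0, 7, 8, 16, 11⟩ : Entry) ∈ T := by simp [T]
  refine survive k _ he hk (h _ (lt_of_le_of_lt ?_ (Nat.lt_of_succ_le number_ge)))
  exact Finset.card_le_three

end Pool.Agent.H22.MEternal
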